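import Pool.Agent.H29.LP.Glob

/-!
# Lemma P

One value of a critical context is fixed, and a base time. The data of a line at the base time are
its position `y` in the block, its velocity `om` and the coefficients `c m j` of its motion in the
normal directions `m`. The frame difference at the time `τ` is `Φ`. The hypothesis `Star` says that
two lines whose displacements differ by at most `κ` have displacements which differ by at most
`η` only, in certain normal directions `T`.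
-/

set_option autoImplicit false

namespace Pool.LP

open Finset Real Polynomial

variable {ι : Type} [Fintype ι] [DecidableEq ι] {μ : Type} [Fintype μ] [DecidableEq μ] {d : ℕ}

/-- The data of a line. -/
structure Ln (ι μ : Type) (d : ℕ) where
  /-- position at the base time -/
  y : ι → ℝ
  /-- velocity -/
  om : ι → ℝ
  /-- coefficients of the normal motion in the direction `m` -/
  c : μ → Fin d → ℝ

/-- The polynomial data in the normal direction `m`. -/
noncomputable def Ln.pv (w : Ln ι μ d) (m : μ) : Pv ι where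
  C := ∑ j : Fin d, Polynomial.C (w.c m j) * X ^ ((j : ℕ) + 1)
  p := fun i => Polynomial.C (w.y i) + X * Polynomial.C (w.om i)

omit [Fintype ι] [DecidableEq ι] [Fintype μ] [DecidableEq μ] in
theorem Ln.pv_C_eval (w : Ln ι μ d) (m : μ) (τ : ℝ) :
    (w.pv m).C.eval τ = ∑ j : Fin d, w.c m j * τ ^ ((j : ℕ) + 1) := by
  simp only [Ln.pv, eval_finsetSum, eval_mul, eval_C, eval_X, eval_pow]

omit [Fintype ι] [DecidableEq ι] [Fintype μ] [DecidableEq μ] in
theorem Ln.pv_p_eval (w : Ln ι μ d) (m : μ) (i : ι) (τ : ℝ) :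
    ((w.pv m).p i).eval τ = w.y i + τ * w.om i := by
  simp only [Ln.pv, eval_add, eval_mul, eval_C, eval_X]

omit [Fintype ι] [DecidableEq ι] [Fintype μ] [DecidableEq μ] in
theorem Ln.pv_C_zero (w : Ln ι μ d) (m : μ) : (w.pv m).C.eval 0 = 0 := by
  rw [Ln.pv_C_eval]
  exact Finset.sum_eq_zero fun j _ => by rw [zero_pow (by omega), mul_zero]

omit [Fintype ι] [DecidableEq ι] [Fintype μ] [DecidableEq μ] in
theorem Ln.pv_deg (w : Ln ι μ d) (m : μ) : (w.pv m).deg d 1 := by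
  constructor
  · show (∑ j : Fin d, Polynomial.C (w.c m j) * X ^ ((j : ℕ) + 1)).natDegree ≤ d
    refine Polynomial.natDegree_sum_le_of_forall_le _ _ fun j _ => ?_
    refine (Polynomial.natDegree_C_mul_X_pow_le _ _).trans ?_
    have := j.2
    omega
  · intro i
    show (Polynomial.C (w.y i) + X * Polynomial.C (w.om i)).natDegree ≤ 1
    refine (Polynomial.natDegree_add_le _ _).trans (max_le ?_ ?_)
    · rw [Polynomial.natDegree_C]
      omega
    · refine (Polynomial.natDegree_mul_le).trans ?_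
      rw [Polynomial.natDegree_C]
      have := Polynomial.natDegree_X_le (R := ℝ)
      omega

/-- The displacement in the direction `m` in the frame `Φ m`. -/
noncomputable def Ln.h (w : Ln ι μ d) (m : μ) (Φ : μ → ι → ℝ) (τ : ℝ) : ℝ :=
  (∑ j : Fin d, w.c m j * τ ^ ((j : ℕ) + 1)) - ∑ i, Φ m i * (w.y i + τ * w.om i)

omit [DecidableEq ι] [Fintype μ] [DecidableEq μ] in
theorem Ln.h_eq (w : Ln ι μ d) (m : μ) (Φ : μ → ι → ℝ) (τ : ℝ) :
    w.h m Φ τ = (w.pv m).h (Φ m) τ := by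
  unfold Ln.h Pv.h
  rw [Ln.pv_C_eval]
  simp only [Ln.pv_p_eval]

/-- The difference of two lines. -/
def Ln.sub (w w' : Ln ι μ d) : Ln ι μ d where
  y := fun i => w.y i - w'.y i
  om := fun i => w.om i - w'.om i
  c := fun m j => w.c m j - w'.c m j

omit [DecidableEq ι] [Fintype μ] [DecidableEq μ] in
theorem Ln.h_sub (w w' : Ln ι μ d) (m : μ) (Φ : μ → ι → ℝ) (τ : ℝ) :
    (w.sub w').h m Φ τ = w.h m Φ τ - w'.h m Φ τ := by
  unfold Ln.h Ln.sub
  have e1 : ∑ j : Fin d, (w.c m j - w'.c m j) * τ ^ ((j : ℕ) + 1) =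
      ∑ j : Fin d, w.c m j * τ ^ ((j : ℕ) + 1) - ∑ j : Fin d, w'.c m j * τ ^ ((j : ℕ) + 1) := by
    rw [← Finset.sum_sub_distrib]
    exact Finset.sum_congr rfl fun j _ => by ring
  have e2 : ∑ i, Φ m i * (w.y i - w'.y i + τ * (w.om i - w'.om i)) =
      ∑ i, Φ m i * (w.y i + τ * w.om i) - ∑ i, Φ m i * (w'.y i + τ * w'.om i) := by
    rw [← Finset.sum_sub_distrib]
    exact Finset.sum_congr rfl fun j _ => by ring
  simp only [e1, e2]
  ring

/-- Bounds for the data. -/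
def Ln.bdd (w : Ln ι μ d) (yb ob cb : ℝ) : Prop :=
  (∀ i, |w.y i| ≤ yb) ∧ (∀ i, |w.om i| ≤ ob) ∧ ∀ m j, |w.c m j| ≤ cb

omit [DecidableEq ι] [Fintype μ] [DecidableEq μ] in
/-- A bound for the displacement. -/
theorem Ln.h_le (w : Ln ι μ d) (yb ob cb Fb r τ : ℝ) (hw : w.bdd yb ob cb) (m : μ)
    (Φ : μ → ι → ℝ) (hΦ : ∀ i, |Φ m i| ≤ Fb) (hτ : |τ| ≤ r) (hr : r ≤ 1) (hcb : 0 ≤ cb)
    (hFb : 0 ≤ Fb) :
    |w.h m Φ τ| ≤ d * (cb * r) + (Fintype.card ι : ℝ) * (Fb * (yb + r * ob)) := by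
  have hr0 : 0 ≤ r := (abs_nonneg _).trans hτ
  have h1 : |∑ j : Fin d, w.c m j * τ ^ ((j : ℕ) + 1)| ≤ d * (cb * r) := by
    calc |∑ j : Fin d, w.c m j * τ ^ ((j : ℕ) + 1)|
        ≤ ∑ j : Fin d, |w.c m j * τ ^ ((j : ℕ) + 1)| := Finset.abs_sum_le_sum_abs _ _
      _ ≤ ∑ _j : Fin d, cb * r := by
          refine Finset.sum_le_sum fun j _ => ?_
          rw [abs_mul, abs_pow]
          refine mul_le_mul (hw.2.2 m j) ?_ (by positivity) hcb
          calc |τ| ^ ((j : ℕ) + 1) ≤ r ^ ((j : ℕ) + 1) := pow_le_pow_left₀ (abs_nonneg _) hτ _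
            _ = r ^ (j : ℕ) * r := pow_succ _ _
            _ ≤ 1 * r := mul_le_mul_of_nonneg_right (pow_le_one₀ hr0 hr) hr0
            _ = r := one_mul r
      _ = _ := by rw [Finset.sum_const, Finset.card_univ, Fintype.card_fin, nsmul_eq_mul]
  have h2 : |∑ i, Φ m i * (w.y i + τ * w.om i)| ≤ (Fintype.card ι : ℝ) * (Fb * (yb + r * ob)) := by
    calc |∑ i, Φ m i * (w.y i + τ * w.om i)| ≤ ∑ i, |Φ m i * (w.y i + τ * w.om i)| :=
          Finset.abs_sum_le_sum_abs _ _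
      _ ≤ ∑ _i : ι, Fb * (yb + r * ob) := by
          refine Finset.sum_le_sum fun i _ => ?_
          rw [abs_mul]
          refine mul_le_mul (hΦ i) ?_ (abs_nonneg _) hFb
          refine (abs_add_le _ _).trans (add_le_add (hw.1 i) ?_)
          rw [abs_mul]
          exact mul_le_mul hτ (hw.2.1 i) (abs_nonneg _) hr0
      _ = _ := by rw [Finset.sum_const, Finset.card_univ, nsmul_eq_mul]
  unfold Ln.h
  exact (abs_sub _ _).trans (add_le_add h1 h2)

/-! ### The pigeonhole -/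

/-- The cell of length `ρ` of a number in `[-B, B]`. -/
noncomputable def col (B ρ x : ℝ) : ℕ := ⌊(x + B) / ρ⌋₊

theorem col_lt {B ρ x : ℝ} {R : ℕ} (hρ : 0 < ρ) (hx : |x| ≤ B) (hR : 2 * B / ρ < R) :
    col B ρ x < R := by
  have h := abs_le.1 hx
  unfold col
  rw [Nat.floor_lt (div_nonneg (by linarith [h.1]) hρ.le)]
  refine lt_of_le_of_lt ?_ hR
  exact div_le_div_of_nonneg_right (by linarith [h.2]) hρ.le

theorem floor_near {x x' : ℝ} (hx : 0 ≤ x) (hx' : 0 ≤ x') (h : ⌊x⌋₊ = ⌊x'⌋₊) : |x - x'| ≤ 1 := by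
  have h1 := Nat.floor_le hx
  have h2 := Nat.lt_floor_add_one x
  have h3 := Nat.floor_le hx'
  have h4 := Nat.lt_floor_add_one x'
  rw [h] at h1 h2
  rw [abs_le]
  constructor <;> linarith

theorem col_eq {B ρ x x' : ℝ} (hρ : 0 < ρ) (hx : |x| ≤ B) (hx' : |x'| ≤ B)
    (h : col B ρ x = col B ρ x') : |x - x'| ≤ ρ := by
  have h0 := abs_le.1 hx
  have h0' := abs_le.1 hx'
  unfold col at h
  have h1 := floor_near (div_nonneg (by linarith [h0.1]) hρ.le)
    (div_nonneg (by linarith [h0'.1]) hρ.le) h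
  rw [← sub_div, abs_div, abs_of_pos hρ, div_le_one hρ] at h1
  have e : x + B - (x' + B) = x - x' := by ring
  rwa [e] at h1

/-- **Two lines whose positions differ in one coordinate only.** -/
theorem pairs (i : ι) (L M G R : ℕ) (hL : 0 < L) (hM : 0 < M) (hG : 0 < G) (B ρ : ℝ)
    (hB : 0 ≤ B) (hρ : 0 < ρ) (hR : 2 * B / ρ < R) (W : Set (Ln ι μ d))
    (hW : ∀ w ∈ W, (∀ j, 0 ≤ w.y j ∧ w.y j < 1) ∧ (∀ j, |w.om j| ≤ B) ∧ ∀ m j, |w.c m j| ≤ B)
    (A : Finset (ι → ℕ))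
    (hA : ∀ a ∈ A, ∃ w ∈ W, ∀ j, ⌊((L : ℝ) * M) * w.y j⌋₊ = a j)
    (hcard : G * M * (L * M) ^ (Fintype.card ι - 1) * R ^ (Fintype.card ι + Fintype.card μ * d) <
      A.card) :
    ∃ w ∈ W, ∃ w' ∈ W, (∀ j, j ≠ i → |(w.sub w').y j| ≤ 1 / ((L : ℝ) * M)) ∧
      ((G : ℝ) - 1) / (L * M) ≤ (w.sub w').y i ∧ (w.sub w').y i ≤ 1 / M ∧
      (∀ j, |(w.sub w').om j| ≤ ρ) ∧ ∀ m j, |(w.sub w').c m j| ≤ ρ := by
  classical
  have hLr : (0 : ℝ) < L := by exact_mod_cast hL
  have hMr : (0 : ℝ) < M := by exact_mod_cast hM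
  have hN : (0 : ℝ) < (L : ℝ) * M := by positivity
  have hRpos : 0 < R := by
    have h1 : (0 : ℝ) ≤ 2 * B / ρ := by positivity
    have h2 : (0 : ℝ) < R := h1.trans_lt hR
    exact_mod_cast h2
  have : NeZero R := ⟨hRpos.ne'⟩
  have hne : ∀ a : ι → ℕ, ∃ w : Ln ι μ d, a ∈ A → w ∈ W ∧ ∀ j, ⌊((L : ℝ) * M) * w.y j⌋₊ = a j := by
    intro a
    by_cases ha : a ∈ A
    · obtain ⟨w, hw, h⟩ := hA a ha
      exact ⟨w, fun _ => ⟨hw, h⟩⟩
    · exact ⟨⟨fun _ => 0, fun _ => 0, fun _ _ => 0⟩, fun h => absurd h ha⟩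
  choose rep hrep using hne
  set f : (ι → ℕ) → (ι → Fin R) × (μ × Fin d → Fin R) := fun a =>
    (fun j => Fin.ofNat R (col B ρ ((rep a).om j)),
      fun x => Fin.ofNat R (col B ρ ((rep a).c x.1 x.2))) with hf
  have hcardF : Fintype.card ((ι → Fin R) × (μ × Fin d → Fin R)) =
      R ^ (Fintype.card ι + Fintype.card μ * d) := by
    rw [Fintype.card_prod, Fintype.card_fun, Fintype.card_fun, Fintype.card_prod, Fintype.card_fin,
      Fintype.card_fin, pow_add]
  obtain ⟨a, ha, a', ha', h1, h2, h3, h4, h5⟩ := pigp i L M G hL hG A f (by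
    intro a ha j
    obtain ⟨hw, hy⟩ := hrep a ha
    have h6 := (hW _ hw).1 j
    rw [← hy j, Nat.floor_lt (by have := h6.1; positivity)]
    push_cast
    nlinarith [h6.2]) (by rw [hcardF]; exact hcard)
  obtain ⟨hw, hy⟩ := hrep a ha
  obtain ⟨hw', hy'⟩ := hrep a' ha'
  have hb := hW _ hw
  have hb' := hW _ hw'
  have hofn : ∀ x x' : ℝ, |x| ≤ B → |x'| ≤ B →
      Fin.ofNat R (col B ρ x) = Fin.ofNat R (col B ρ x') → |x - x'| ≤ ρ := by
    intro x x' hx hx' h
    refine col_eq hρ hx hx' ?_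
    have h6 := congrArg Fin.val h
    simp only [Fin.val_ofNat] at h6
    rwa [Nat.mod_eq_of_lt (col_lt hρ hx hR), Nat.mod_eq_of_lt (col_lt hρ hx' hR)] at h6
  refine ⟨rep a, hw, rep a', hw', ?_, ?_, ?_, ?_, ?_⟩
  · intro j hj
    have h6 := floor_near (x := (L : ℝ) * M * (rep a).y j) (x' := (L : ℝ) * M * (rep a').y j)
      (by have := (hb.1 j).1; positivity) (by have := (hb'.1 j).1; positivity)
      (by rw [hy j, hy' j]; exact h1 j hj)
    rw [← mul_sub, abs_mul, abs_of_pos hN] at h6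
    show |(rep a).y j - (rep a').y j| ≤ _
    rw [le_div_iff₀ hN, mul_comm]
    exact h6
  · show _ ≤ (rep a).y i - (rep a').y i
    rw [div_le_iff₀ hN]
    have h6 := Nat.floor_le (a := (L : ℝ) * M * (rep a).y i) (by have := (hb.1 i).1; positivity)
    have h7 := Nat.lt_floor_add_one ((L : ℝ) * M * (rep a').y i)
    rw [hy i] at h6
    rw [hy' i] at h7
    have h8 : (a' i : ℝ) + G ≤ a i := by exact_mod_cast h3
    nlinarith
  · show (rep a).y i - (rep a').y i ≤ _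
    rw [le_div_iff₀ hMr]
    have h6 := Nat.lt_floor_add_one ((L : ℝ) * M * (rep a).y i)
    have h7 := Nat.floor_le (a := (L : ℝ) * M * (rep a').y i) (by have := (hb'.1 i).1; positivity)
    rw [hy i] at h6
    rw [hy' i] at h7
    have h8 : (a i : ℝ) + 1 ≤ a' i + L := by exact_mod_cast h4
    have h9 : (L : ℝ) * (((rep a).y i - (rep a').y i) * M) ≤ L * 1 := by nlinarith
    exact le_of_mul_le_mul_left h9 hLr
  · intro j
    exact hofn _ _ (hb.2.1 j) (hb'.2.1 j) (congrFun (congrArg Prod.fst h5) j)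
  · intro m j
    exact hofn _ _ (hb.2.2 m j) (hb'.2.2 m j) (congrFun (congrArg Prod.snd h5) (m, j))

end Pool.LP
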