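import Pool.Agent.H29.LP.Star

/-!
# Lemma BR (backward rows)

One value of the context. The block of the normal coordinate has `L = 2 * v + u₂` binary digits,
it begins at the row `P - 2 * v`; the rows `(P - 2 * v, P - v]` are not full. Then two typical
values of the line whose displacements differ by at most `2 ^ (-v)` of the block (that is, by
`2 ^ v` units `2 ^ (-P)`) have displacements which agree up to `2 ^ (-u)` units `2 ^ (-P)`.

* `br_thm`: all typical pairs at every typical time;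
* `br_mates`: two lines with the same position and the same normal velocity at the base time;
* `br_const`: two lines with the same position at the base time, two times of the window.
-/

set_option autoImplicit false

namespace Pool.LP

open Finset Real
open Pool.Agent.H49.Ent Pool.Agent.H32.Dense Pool.STK Pool.KVA Pool.KX Pool.KAL Pool.KAF

variable {ι : Type} [Fintype ι]

/-- **Lemma BR.** All typical pairs at once. -/
theorem br_thm {d : ℕ} {Ω : Type} [Fintype Ω] {p : Ω → ℝ} (hp : IsLaw p) (A : Ω → ℤ)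
    (X : ℝ → Ω → ℤ) (o : Ω → Ln ι Unit d) (Bd : ℝ → Set Ω) (v u u₂ N : ℕ)
    (R e₁ e₂ ρ e : ℝ) (hu : u ≤ u₂) (hN : 0 < N) (hR : 0 ≤ R) (hρ : 0 < ρ)
    (he : (2 * (2 * Real.sqrt e₁ + e₂)) / ρ + 2 * (R / N) ≤ e) (he0 : 0 ≤ e)
    (he2 : 9 * 4 ^ (2 * v + u) * e ≤ 1) (Φ : ℝ → Unit → ι → ℝ) (S : Set ℝ)
    (g : ℝ → Ln ι Unit d → ℤ)
    (hg : ∀ τ ∈ S, ∀ w, ρ ≤ law p o w →
      |(g τ w : ℝ) - 2 ^ (2 * v + u₂) * w.h () (Φ τ) τ| ≤ 1)
    (hX : ∀ τ ∈ S, ∀ ω, ω ∉ Bd τ → |((X τ ω - A ω - g τ (o ω) : ℤ) : ℝ)| ≤ R)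
    (hBd : ∀ τ ∈ S, Pr p (Bd τ) ≤ e₂)
    (hA : H p A + H p o - H p (fun ω => (A ω, o ω)) ≤ e₁)
    (hXo : ∀ τ ∈ S, H p (X τ) + H p o - H p (fun ω => (X τ ω, o ω)) ≤ e₁)
    (hent : CH (smp 1 N p)
        (fun w => (A w.1 + ((w.2 0 : ℕ) : ℤ)) / ((2 ^ (v + u₂) : ℕ) : ℤ))
        (fun w => ((A w.1 + ((w.2 0 : ℕ) : ℤ)) / ((2 ^ (2 * v + u₂) : ℕ) : ℤ), ())) <
      (v : ℝ) * Real.log 2 - 5)
    (hap : ∀ τ ∈ S, ∀ w w', ρ ≤ law p o w → ρ ≤ law p o w' →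
      2 ^ (2 * v) * |(w.sub w').h () (Φ τ) τ| ≤ 2 ^ v - 2) :
    ∀ τ ∈ S, ∀ w w', ρ ≤ law p o w → ρ ≤ law p o w' →
      2 ^ (2 * v) * |(w.sub w').h () (Φ τ) τ| ≤ 1 / 2 ^ u + 2 / 2 ^ u₂ := by
  intro τ hτ w w' hw hw'
  have hL : (0 : ℝ) < 2 ^ (2 * v + u₂) := by positivity
  have h2 : (2 : ℝ) ^ (2 * v + u₂) = 2 ^ (2 * v) * 2 ^ u₂ := by rw [pow_add]
  have h3 : (2 : ℝ) ^ (v + u₂) = 2 ^ v * 2 ^ u₂ := by rw [pow_add]
  have h4 : (2 : ℝ) ^ u₂ = 2 ^ (u₂ - u) * 2 ^ u := by rw [← pow_add, Nat.sub_add_cancel hu]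
  have hu2 : (1 : ℝ) ≤ 2 ^ u₂ := one_le_pow₀ (by norm_num)
  have hstar := star_of_indep hp A X o Bd (v + u₂) (2 * v + u₂) (u₂ - u) N R e₁ e₂ ρ e
    (by omega) hN hR hρ he he0
    (by rwa [show 2 * v + u₂ - (u₂ - u) = 2 * v + u by omega]) Φ S g hg hX hBd hA hXo
    (by
      refine hent.trans_le (le_of_eq ?_)
      push_cast
      ring)
  have hpre : ∀ m : Unit, |(w.sub w').h m (Φ τ) τ| ≤
      (2 ^ (v + u₂) - 2) / 2 ^ (2 * v + u₂) := by
    intro m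
    obtain rfl : m = () := rfl
    rw [le_div_iff₀ hL, h2, h3]
    have h5 := hap τ hτ w w' hw hw'
    have h6 : |(w.sub w').h () (Φ τ) τ| * (2 ^ (2 * v) * 2 ^ u₂) =
        (2 ^ (2 * v) * |(w.sub w').h () (Φ τ) τ|) * 2 ^ u₂ := by ring
    rw [h6]
    have h7 : (2 ^ (2 * v) * |(w.sub w').h () (Φ τ) τ|) * (2 : ℝ) ^ u₂ ≤
        (2 ^ v - 2) * 2 ^ u₂ := mul_le_mul_of_nonneg_right h5 (by positivity)
    linarith
  have h8 := hstar τ hτ w hw w' hw' hpre () (Set.mem_univ _)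
  rw [le_div_iff₀ hL, h2] at h8
  have h9 : (2 : ℝ) ^ (2 * v) * |(w.sub w').h () (Φ τ) τ| * 2 ^ u₂ ≤ 2 ^ (u₂ - u) + 2 := by
    calc (2 : ℝ) ^ (2 * v) * |(w.sub w').h () (Φ τ) τ| * 2 ^ u₂
        = |(w.sub w').h () (Φ τ) τ| * (2 ^ (2 * v) * 2 ^ u₂) := by ring
      _ ≤ _ := h8
  have hu0 : (0 : ℝ) < 2 ^ u₂ := by positivity
  have e1 : (1 : ℝ) / 2 ^ u = 2 ^ (u₂ - u) / 2 ^ u₂ := by
    rw [h4, div_eq_div_iff (by positivity) (by positivity)]
    ring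
  rw [e1, ← add_div, le_div_iff₀ hu0]
  exact h9

omit [Fintype ι] in
/-- Two lines with the same position and the same normal velocity at the base time. -/
theorem br_mates [Fintype ι] (w w' : Ln ι Unit 1) (Φ : Unit → ι → ℝ) (τ η : ℝ)
    (hy : ∀ i, w.y i = w'.y i) (hc : w.c () 0 = w'.c () 0)
    (h : |(w.sub w').h () Φ τ| ≤ η) :
    |τ| * |∑ i, Φ () i * (w.om i - w'.om i)| ≤ η := by
  have e1 : (w.sub w').h () Φ τ = -(τ * ∑ i, Φ () i * (w.om i - w'.om i)) := by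
    unfold Ln.h Ln.sub
    simp only [Fin.sum_univ_one, hc, sub_self, zero_mul, zero_sub, neg_inj]
    rw [Finset.mul_sum]
    refine Finset.sum_congr rfl fun i _ => ?_
    rw [hy i]
    ring
  rw [e1, abs_neg, abs_mul] at h
  exact h

omit [Fintype ι] in
/-- Two lines with the same position at the base time: the difference of the frames at two
times of the window kills the difference of the velocities. -/
theorem br_const [Fintype ι] (w w' : Ln ι Unit 1) (Φ Φ' : Unit → ι → ℝ) (τ τ' η r : ℝ)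
    (hr : 0 < r) (hτ : r ≤ |τ|) (hτ' : r ≤ |τ'|) (hy : ∀ i, w.y i = w'.y i)
    (h : |(w.sub w').h () Φ τ| ≤ η) (h' : |(w.sub w').h () Φ' τ'| ≤ η) :
    |∑ i, (Φ () i - Φ' () i) * (w.om i - w'.om i)| ≤ 2 * η / r := by
  have key : ∀ (Ψ : Unit → ι → ℝ) (t : ℝ), (w.sub w').h () Ψ t =
      t * ((w.c () 0 - w'.c () 0) - ∑ i, Ψ () i * (w.om i - w'.om i)) := by
    intro Ψ t
    unfold Ln.h Ln.sub
    simp only [Fin.sum_univ_one]
    have e2 : ∑ i, Ψ () i * (w.y i - w'.y i + t * (w.om i - w'.om i)) =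
        t * ∑ i, Ψ () i * (w.om i - w'.om i) := by
      rw [Finset.mul_sum]
      refine Finset.sum_congr rfl fun i _ => ?_
      rw [hy i]
      ring
    rw [e2]
    simp only [Fin.val_zero, zero_add, pow_one, Fin.isValue]
    ring
  have hη : 0 ≤ η := (abs_nonneg _).trans h
  have one : ∀ (Ψ : Unit → ι → ℝ) (t : ℝ), r ≤ |t| → |(w.sub w').h () Ψ t| ≤ η →
      |(w.c () 0 - w'.c () 0) - ∑ i, Ψ () i * (w.om i - w'.om i)| ≤ η / r := by
    intro Ψ t ht hh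
    rw [key, abs_mul] at hh
    rw [le_div_iff₀ hr]
    calc |(w.c () 0 - w'.c () 0) - ∑ i, Ψ () i * (w.om i - w'.om i)| * r
        ≤ |(w.c () 0 - w'.c () 0) - ∑ i, Ψ () i * (w.om i - w'.om i)| * |t| :=
          mul_le_mul_of_nonneg_left ht (abs_nonneg _)
      _ = |t| * |(w.c () 0 - w'.c () 0) - ∑ i, Ψ () i * (w.om i - w'.om i)| := mul_comm _ _
      _ ≤ η := hh
  have h1 := one Φ τ hτ h
  have h2 := one Φ' τ' hτ' h'
  have e3 : ∑ i, (Φ () i - Φ' () i) * (w.om i - w'.om i) =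
      ((w.c () 0 - w'.c () 0) - ∑ i, Φ' () i * (w.om i - w'.om i)) -
        ((w.c () 0 - w'.c () 0) - ∑ i, Φ () i * (w.om i - w'.om i)) := by
    have e4 : ∑ i, (Φ () i - Φ' () i) * (w.om i - w'.om i) =
        ∑ i, Φ () i * (w.om i - w'.om i) - ∑ i, Φ' () i * (w.om i - w'.om i) := by
      rw [← Finset.sum_sub_distrib]
      exact Finset.sum_congr rfl fun i _ => by ring
    rw [e4]
    ring
  rw [e3]
  refine (abs_sub _ _).trans ?_
  have e5 : 2 * η / r = η / r + η / r := by ring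
  rw [e5]
  linarith

end Pool.LP
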