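import Pool.Agent.H29.LP.Main
import Pool.Agent.H18.KAL.INVX

/-!
# Lemma P: consequences

* the denominator of the rational frame is small on a small set of times only;
* motions of degree one: the coefficients of the normal motions of two lines through one point
  agree, and the turning of the frame kills the difference of their velocities;
* the hypothesis `Star` for one normal direction from the invariance of the laws.
-/

set_option autoImplicit false

namespace Pool.LP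

open Finset Real Polynomial MeasureTheory
open Pool.Agent.H49.Ent Pool.Agent.H32.Dense Pool.STK Pool.KVA Pool.KX

/-- The set of times at which the denominator is small is small. -/
theorem small_set (q : ℝ[X]) (k : ℕ) (hq : q.natDegree ≤ k) (K s δ : ℝ) (hs : 0 < s)
    (hK : 0 < K) (h0 : 1 / K ≤ |q.eval 0|) (hδ : K * ((k : ℝ) + 1) * δ < s ^ k) :
    volume {τ : ℝ | τ ∈ Set.Icc (-1) 1 ∧ |q.eval τ| ≤ δ} ≤ ENNReal.ofReal (k * s) := by
  by_contra hcon
  rw [not_le] at hcon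
  obtain ⟨x, hx, hxs⟩ := Pool.KAL.RMM.exists_points hs (-1) 1 k
    {τ : ℝ | τ ∈ Set.Icc (-1) 1 ∧ |q.eval τ| ≤ δ} (fun τ hτ => hτ.1) hcon
  have hB : ∀ i, i ≤ k → |(0 : ℝ) - x i| ≤ 1 := by
    intro i hi
    have h1 := (hx i hi).1
    rw [zero_sub, abs_neg, abs_le]
    exact ⟨h1.1, h1.2⟩
  have h := Pool.KAL.RMM.lagrange_bound k q hq x s 1 δ 0 hs hxs hB (fun i hi => (hx i hi).2)
  have h1 : ((k : ℝ) + 1) * ((1 / s) ^ k * δ) < 1 / K := by
    rw [lt_div_iff₀ hK]
    have hsk : 0 < s ^ k := by positivity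
    have e1 : ((k : ℝ) + 1) * ((1 / s) ^ k * δ) * K = (K * ((k : ℝ) + 1) * δ) / s ^ k := by
      rw [one_div, inv_pow]
      field_simp
    rw [e1, div_lt_one hsk]
    exact hδ
  linarith

/-- A polynomial which vanishes at zero is small near zero. -/
theorem near_zero (P : ℝ[X]) (k : ℕ) (hP : P.natDegree ≤ k + 1) (K : ℝ)
    (h0 : P.eval 0 = 0) (hb : ∀ τ : ℝ, |τ| ≤ 1 → |P.eval τ| ≤ K) (τ : ℝ) (hτ : |τ| ≤ 1) :
    |P.eval τ| ≤ ((k : ℝ) + 1) * ((4 * ((k : ℝ) + 1)) ^ k * (2 * K)) * |τ| := by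
  set Q : ℝ[X] := P.divX with hQ
  have hPQ : P = Q * X := by
    have h1 := Polynomial.divX_mul_X_add P
    rw [Polynomial.coeff_zero_eq_eval_zero, h0, Polynomial.C_0, add_zero] at h1
    exact h1.symm
  have hQd : Q.natDegree ≤ k := by
    rw [hQ, Polynomial.natDegree_divX_eq_natDegree_tsub_one]
    omega
  have hev : ∀ x : ℝ, P.eval x = Q.eval x * x := by
    intro x
    conv_lhs => rw [hPQ]
    rw [eval_mul, eval_X]
  have hk : (0 : ℝ) < (k : ℝ) + 1 := by positivity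
  set x : ℕ → ℝ := fun i => 1 / 2 + (i : ℝ) / (2 * ((k : ℝ) + 1)) with hx
  have hx1 : ∀ i, i ≤ k → 1 / 2 ≤ x i ∧ x i ≤ 1 := by
    intro i hi
    have h1 : (0 : ℝ) ≤ (i : ℝ) / (2 * ((k : ℝ) + 1)) := by positivity
    have h2 : (i : ℝ) / (2 * ((k : ℝ) + 1)) ≤ 1 / 2 := by
      rw [div_le_iff₀ (by positivity)]
      have h3 : (i : ℝ) ≤ k := by exact_mod_cast hi
      linarith
    rw [hx]
    constructor <;> linarith
  have hxs : ∀ i j, i < j → j ≤ k → 1 / (2 * ((k : ℝ) + 1)) ≤ x j - x i := by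
    intro i j hij _
    rw [hx]
    have h1 : (1 : ℝ) ≤ (j : ℝ) - i := by
      have : (i : ℝ) + 1 ≤ j := by exact_mod_cast hij
      linarith
    have h2 : 1 / 2 + (j : ℝ) / (2 * ((k : ℝ) + 1)) - (1 / 2 + (i : ℝ) / (2 * ((k : ℝ) + 1))) =
        ((j : ℝ) - i) / (2 * ((k : ℝ) + 1)) := by ring
    show _ ≤ 1 / 2 + (j : ℝ) / (2 * ((k : ℝ) + 1)) - (1 / 2 + (i : ℝ) / (2 * ((k : ℝ) + 1)))
    rw [h2]
    exact div_le_div_of_nonneg_right h1 (by positivity)
  have hB : ∀ i, i ≤ k → |τ - x i| ≤ 2 := by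
    intro i hi
    have h1 := hx1 i hi
    have h2 := abs_le.1 hτ
    rw [abs_le]
    constructor <;> linarith [h1.1, h1.2, h2.1, h2.2]
  have hM : ∀ i, i ≤ k → |Q.eval (x i)| ≤ 2 * K := by
    intro i hi
    have h1 := hx1 i hi
    have h2 := hb (x i) (by rw [abs_le]; constructor <;> linarith [h1.1, h1.2])
    rw [hev, abs_mul, abs_of_nonneg (by linarith [h1.1] : (0 : ℝ) ≤ x i)] at h2
    nlinarith [abs_nonneg (Q.eval (x i)), h1.1]
  have h := Pool.KAL.RMM.lagrange_bound k Q hQd x (1 / (2 * ((k : ℝ) + 1))) 2 (2 * K) τ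
    (by positivity) hxs hB hM
  have e1 : (2 : ℝ) / (1 / (2 * ((k : ℝ) + 1))) = 4 * ((k : ℝ) + 1) := by
    field_simp
    ring
  rw [e1] at h
  rw [hev, abs_mul]
  exact mul_le_mul_of_nonneg_right h (abs_nonneg _)

/-- **Turning kills the fan.** Motions of degree one. Two lines of `W` with the same position at
the base time have the same coefficients of the normal motions, and the frame difference at the
time `τ` kills the difference of their velocities, if `q τ` is not small. -/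
theorem lemma_P_one (ι μ : Type) [Fintype ι] [DecidableEq ι] [Fintype μ] [DecidableEq μ]
    (B κ : ℝ) (hB : 1 ≤ B) (hκ : 0 < κ) :
    ∃ (N : ℕ) (r K : ℝ), 0 < N ∧ 0 < r ∧ r ≤ 1 ∧ 1 ≤ K ∧
      ∀ (W : Set (Ln ι μ 1)) (T : Set μ) (Φ : ℝ → μ → ι → ℝ)
      (S : Set ℝ) (η a : ℝ) (A : Finset (ι → ℕ)), 0 < η →
      (∀ w ∈ W, (∀ j, 0 ≤ w.y j ∧ w.y j < 1) ∧ (∀ j, |w.om j| ≤ B) ∧ ∀ m j, |w.c m j| ≤ B) →
      (∀ τ ∈ S, |τ| ≤ 1 ∧ ∀ m i, |Φ τ m i| ≤ B) → Star W T Φ S κ η →
      (∀ b ∈ A, ∃ w ∈ W, ∀ j, ⌊(N : ℝ) * w.y j⌋₊ = b j) →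
      N ^ Fintype.card ι ≤ 2 * A.card →
      -r ≤ a → a ≤ 0 → (∀ x, a ≤ x → x ≤ a + r → ∃ τ ∈ S, |τ - x| ≤ r ^ 2) →
      (∃ τ ∈ S, Real.sqrt η ≤ |τ| ∧ |τ| ≤ 2 * Real.sqrt η) →
      ∃ q : ℝ[X], q.natDegree ≤ Fintype.card ι ∧ 1 / K ≤ |q.eval 0| ∧
        ∀ w ∈ W, ∀ w' ∈ W, (∀ i, |w.y i - w'.y i| ≤ η) → ∀ m ∈ T,
          |w.c m 0 - w'.c m 0| ≤ K * Real.sqrt η ∧
          ∀ τ ∈ S, |q.eval τ| * (|τ| * |∑ i, Φ τ m i * (w.om i - w'.om i)|) ≤
            K * Real.sqrt η := by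
  classical
  obtain ⟨N, r, K0, hN, hr0, hr1, hK0, hmain⟩ := lemma_P ι μ 1 le_rfl B κ hB hκ
  set k : ℕ := Fintype.card ι with hk
  have hk0 : (0 : ℝ) ≤ k := by positivity
  have hK0p : 0 < K0 := by linarith
  set C1 : ℝ := ((k : ℝ) + 1) * ((4 * ((k : ℝ) + 1)) ^ k * (2 * (2 * K0))) with hC1
  have hC10 : 0 ≤ C1 := by positivity
  set c0 : ℝ := min r (1 / (4 * K0 * C1 + 1)) with hc0
  have hc0p : 0 < c0 := lt_min hr0 (by positivity)
  have hc0r : c0 ≤ r := min_le_left _ _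
  have hc01 : c0 ≤ 1 := hc0r.trans hr1
  have hc0C : 2 * c0 * C1 ≤ 1 / (2 * K0) := by
    have h1 : c0 ≤ 1 / (4 * K0 * C1 + 1) := min_le_right _ _
    rw [le_div_iff₀ (by positivity)] at h1
    rw [le_div_iff₀ (by positivity)]
    nlinarith
  set C3 : ℝ := 2 * K0 * (K0 + k * K0 * B + 4 * k * B * (2 * C1 + K0)) with hC3
  have hC30 : 0 ≤ C3 := by positivity
  set K : ℝ := K0 + C3 + 2 * B / c0 + K0 * (k * (B * (2 * B))) / c0 +
    (K0 + K0 * C3 + K0 * (k * B)) with hK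
  have t1 : 0 ≤ 2 * B / c0 := by positivity
  have t2 : 0 ≤ K0 * (k * (B * (2 * B))) / c0 := by positivity
  have t3 : 0 ≤ K0 + K0 * C3 + K0 * (k * B) := by positivity
  have hKK0 : K0 ≤ K := by rw [hK]; linarith
  refine ⟨N, r, K, hN, hr0, hr1, by linarith, ?_⟩
  intro W T Φ S η a A hη hW hS hstar hA hAc ha1 ha2 hmesh hτ1
  obtain ⟨q, P, hq1, hq2, hq3, hP1, hP2, hcons⟩ :=
    hmain W T Φ S η a A hη.le hW hS hstar hA hAc ha1 ha2 hmesh
  refine ⟨q, hq1, (one_div_le_one_div_of_le hK0p hKK0).trans hq2, ?_⟩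
  intro w hw w' hw' hy m hm
  set σ : ℝ := Real.sqrt η with hσ
  have hσ0 : 0 < σ := Real.sqrt_pos.2 hη
  have hσ2 : σ * σ = η := Real.mul_self_sqrt hη.le
  have hcb : |w.c m 0 - w'.c m 0| ≤ 2 * B := by
    have e1 := (hW _ hw).2.2 m 0
    have e2 := (hW _ hw').2.2 m 0
    exact (abs_sub _ _).trans (by linarith)
  have homb : ∀ i, |w.om i - w'.om i| ≤ 2 * B := by
    intro i
    have e1 := (hW _ hw).2.1 i
    have e2 := (hW _ hw').2.1 i
    exact (abs_sub _ _).trans (by linarith)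
  have hsumb : ∀ τ ∈ S, |∑ i, Φ τ m i * (w.om i - w'.om i)| ≤ k * (B * (2 * B)) := by
    intro τ hτ
    calc |∑ i, Φ τ m i * (w.om i - w'.om i)| ≤ ∑ i, |Φ τ m i * (w.om i - w'.om i)| :=
          Finset.abs_sum_le_sum_abs _ _
      _ ≤ ∑ _i : ι, B * (2 * B) := by
          refine Finset.sum_le_sum fun i _ => ?_
          rw [abs_mul]
          exact mul_le_mul ((hS τ hτ).2 m i) (homb i) (abs_nonneg _) (by linarith)
      _ = _ := by rw [Finset.sum_const, Finset.card_univ, nsmul_eq_mul, ← hk]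
  rcases le_or_gt c0 σ with hbig | hsm
  · -- trivial case
    have h1 : 2 * B ≤ 2 * B / c0 * σ := by
      rw [div_mul_eq_mul_div, le_div_iff₀ hc0p]
      nlinarith
    have h2 : K0 * (k * (B * (2 * B))) ≤ K0 * (k * (B * (2 * B))) / c0 * σ := by
      rw [div_mul_eq_mul_div, le_div_iff₀ hc0p]
      have : 0 ≤ K0 * (k * (B * (2 * B))) := by positivity
      nlinarith
    constructor
    · refine hcb.trans (h1.trans ?_)
      refine mul_le_mul_of_nonneg_right ?_ hσ0.le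
      rw [hK]
      linarith
    · intro τ hτ
      calc |q.eval τ| * (|τ| * |∑ i, Φ τ m i * (w.om i - w'.om i)|)
          ≤ K0 * (1 * (k * (B * (2 * B)))) := by
            refine mul_le_mul (hq3 τ (hS τ hτ).1) ?_ (by positivity) hK0p.le
            exact mul_le_mul (hS τ hτ).1 (hsumb τ hτ) (abs_nonneg _) zero_le_one
        _ = K0 * (k * (B * (2 * B))) := by ring
        _ ≤ _ := h2
        _ ≤ K * σ := by
            refine mul_le_mul_of_nonneg_right ?_ hσ0.le
            rw [hK]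
            linarith
  · -- main case
    have hσ1 : σ ≤ 1 := hsm.le.trans hc01
    have hησ : η ≤ σ := by nlinarith
    have hηr : η ≤ r := hησ.trans (hsm.le.trans hc0r)
    obtain ⟨τ1, hτ1S, hτ1a, hτ1b⟩ := hτ1
    have hτ11 : |τ1| ≤ 1 := (hS τ1 hτ1S).1
    have hq0 : 1 / (2 * K0) ≤ |q.eval τ1| := by
      have h1 := near_zero (q - C (q.eval 0)) k (by
        refine (natDegree_sub_le _ _).trans (max_le (by omega) ?_)
        rw [natDegree_C]
        omega) (2 * K0) (by simp) (fun τ hτ => by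
          rw [eval_sub, eval_C]
          have e1 := hq3 τ hτ
          have e2 := hq3 0 (by rw [abs_zero]; exact zero_le_one)
          exact (abs_sub _ _).trans (by linarith)) τ1 hτ11
      rw [eval_sub, eval_C, ← hC1] at h1
      have h2 : C1 * |τ1| ≤ 1 / (2 * K0) := by
        calc C1 * |τ1| ≤ C1 * (2 * σ) := mul_le_mul_of_nonneg_left hτ1b hC10
          _ ≤ C1 * (2 * c0) := mul_le_mul_of_nonneg_left (by linarith) hC10
          _ = 2 * c0 * C1 := by ring
          _ ≤ _ := hc0C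
      have h3 : |q.eval 0| ≤ |q.eval τ1| + |q.eval τ1 - q.eval 0| := by
        have h4 := abs_sub (q.eval τ1) (q.eval τ1 - q.eval 0)
        rwa [sub_sub_cancel] at h4
      have h5 : 1 / K0 = 1 / (2 * K0) + 1 / (2 * K0) := by
        field_simp
        ring
      linarith
    have hqΦ : ∀ i, |q.eval τ1| * |Φ τ1 m i| ≤ C1 * (2 * σ) + K0 * η := by
      intro i
      obtain ⟨g1, g2, g3⟩ := hP1 m i
      have h1 := near_zero (P m i) k (by omega) K0 g2 g3 τ1 hτ11
      have h2 := hP2 m hm i τ1 hτ1S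
      have h3 : |q.eval τ1 * Φ τ1 m i| ≤ |(P m i).eval τ1| +
          |q.eval τ1 * Φ τ1 m i - (P m i).eval τ1| := by
        have h4 := abs_add_le ((P m i).eval τ1) (q.eval τ1 * Φ τ1 m i - (P m i).eval τ1)
        rwa [add_sub_cancel] at h4
      rw [← abs_mul]
      have h5 : ((k : ℝ) + 1) * ((4 * ((k : ℝ) + 1)) ^ k * (2 * K0)) * |τ1| ≤ C1 * (2 * σ) := by
        have h6 : ((k : ℝ) + 1) * ((4 * ((k : ℝ) + 1)) ^ k * (2 * K0)) ≤ C1 := by
          rw [hC1]
          have e1 : (0 : ℝ) ≤ (4 * ((k : ℝ) + 1)) ^ k := by positivity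
          refine mul_le_mul_of_nonneg_left ?_ (by positivity)
          exact mul_le_mul_of_nonneg_left (by linarith) e1
        exact mul_le_mul h6 hτ1b (abs_nonneg _) hC10
      linarith
    have hh : ∀ τ : ℝ, (w.sub w').h m (Φ τ) τ = (w.c m 0 - w'.c m 0) * τ -
        (∑ i, Φ τ m i * (w.y i - w'.y i)) - τ * ∑ i, Φ τ m i * (w.om i - w'.om i) := by
      intro τ
      unfold Ln.h Ln.sub
      rw [Fin.sum_univ_one]
      have e1 : ∑ i, Φ τ m i * (w.y i - w'.y i + τ * (w.om i - w'.om i)) =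
          ∑ i, Φ τ m i * (w.y i - w'.y i) + τ * ∑ i, Φ τ m i * (w.om i - w'.om i) := by
        rw [Finset.mul_sum, ← Finset.sum_add_distrib]
        exact Finset.sum_congr rfl fun i _ => by ring
      simp only [e1]
      simp only [Fin.val_zero, zero_add, pow_one]
      ring
    have hys : ∀ τ ∈ S, |∑ i, Φ τ m i * (w.y i - w'.y i)| ≤ k * (B * η) := by
      intro τ hτ
      calc |∑ i, Φ τ m i * (w.y i - w'.y i)| ≤ ∑ i, |Φ τ m i * (w.y i - w'.y i)| :=
            Finset.abs_sum_le_sum_abs _ _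
        _ ≤ ∑ _i : ι, B * η := by
            refine Finset.sum_le_sum fun i _ => ?_
            rw [abs_mul]
            exact mul_le_mul ((hS τ hτ).2 m i) (hy i) (abs_nonneg _) (by linarith)
        _ = _ := by rw [Finset.sum_const, Finset.card_univ, nsmul_eq_mul, ← hk]
    have homs : |q.eval τ1| * |∑ i, Φ τ1 m i * (w.om i - w'.om i)| ≤
        k * ((C1 * (2 * σ) + K0 * η) * (2 * B)) := by
      rw [← abs_mul, Finset.mul_sum]
      calc |∑ i, q.eval τ1 * (Φ τ1 m i * (w.om i - w'.om i))|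
          ≤ ∑ i, |q.eval τ1 * (Φ τ1 m i * (w.om i - w'.om i))| := Finset.abs_sum_le_sum_abs _ _
        _ ≤ ∑ _i : ι, (C1 * (2 * σ) + K0 * η) * (2 * B) := by
            refine Finset.sum_le_sum fun i _ => ?_
            rw [← mul_assoc, abs_mul, abs_mul]
            exact mul_le_mul (hqΦ i) (homb i) (abs_nonneg _) (by positivity)
        _ = _ := by rw [Finset.sum_const, Finset.card_univ, nsmul_eq_mul, ← hk]
    have hyr : ∀ i, |w.y i - w'.y i| ≤ r := fun i => (hy i).trans hηr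
    have hcσ : |w.c m 0 - w'.c m 0| ≤ C3 * σ := by
      have h1 := hcons w hw w' hw' hyr m hm τ1 hτ1S
      have h2 : |q.eval τ1| * |(w.c m 0 - w'.c m 0) * τ1| ≤
          K0 * η + K0 * (k * (B * η)) + 2 * σ * (k * ((C1 * (2 * σ) + K0 * η) * (2 * B))) := by
        have e1 : (w.c m 0 - w'.c m 0) * τ1 = (w.sub w').h m (Φ τ1) τ1 +
            (∑ i, Φ τ1 m i * (w.y i - w'.y i)) + τ1 * ∑ i, Φ τ1 m i * (w.om i - w'.om i) := by
          rw [hh τ1]
          ring
        rw [e1]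
        have e2 : |q.eval τ1| * |(w.sub w').h m (Φ τ1) τ1 +
            (∑ i, Φ τ1 m i * (w.y i - w'.y i)) + τ1 * ∑ i, Φ τ1 m i * (w.om i - w'.om i)| ≤
            |q.eval τ1| * |(w.sub w').h m (Φ τ1) τ1| +
            |q.eval τ1| * |∑ i, Φ τ1 m i * (w.y i - w'.y i)| +
            |τ1| * (|q.eval τ1| * |∑ i, Φ τ1 m i * (w.om i - w'.om i)|) := by
          have e3 := abs_add_three ((w.sub w').h m (Φ τ1) τ1)
            (∑ i, Φ τ1 m i * (w.y i - w'.y i)) (τ1 * ∑ i, Φ τ1 m i * (w.om i - w'.om i))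
          have e4 := mul_le_mul_of_nonneg_left e3 (abs_nonneg (q.eval τ1))
          refine e4.trans (le_of_eq ?_)
          rw [abs_mul τ1]
          ring
        refine e2.trans ?_
        have e5 : |q.eval τ1| * |∑ i, Φ τ1 m i * (w.y i - w'.y i)| ≤ K0 * (k * (B * η)) :=
          mul_le_mul (hq3 τ1 hτ11) (hys τ1 hτ1S) (abs_nonneg _) hK0p.le
        have e6 : |τ1| * (|q.eval τ1| * |∑ i, Φ τ1 m i * (w.om i - w'.om i)|) ≤
            2 * σ * (k * ((C1 * (2 * σ) + K0 * η) * (2 * B))) :=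
          mul_le_mul hτ1b homs (by positivity) (by positivity)
        linarith
      have h3 : 1 / (2 * K0) * (|w.c m 0 - w'.c m 0| * σ) ≤
          |q.eval τ1| * |(w.c m 0 - w'.c m 0) * τ1| := by
        rw [abs_mul]
        refine mul_le_mul hq0 ?_ (by positivity) (abs_nonneg _)
        exact mul_le_mul_of_nonneg_left hτ1a (abs_nonneg _)
      have h4 : 1 / (2 * K0) * (|w.c m 0 - w'.c m 0| * σ) ≤
          (K0 + k * K0 * B + 4 * k * B * (2 * C1 + K0)) * σ * σ := by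
        refine (h3.trans h2).trans ?_
        rw [← hσ2]
        have e1 : (k : ℝ) * B * K0 * (σ * σ * σ) ≤ (k : ℝ) * B * K0 * (σ * σ) := by
          refine mul_le_mul_of_nonneg_left ?_ (by positivity)
          nlinarith [mul_pos hσ0 hσ0]
        nlinarith [e1]
      rw [one_div, inv_mul_le_iff₀ (by positivity)] at h4
      have h5 : |w.c m 0 - w'.c m 0| * σ ≤ C3 * σ * σ := by
        rw [hC3]
        linarith
      exact le_of_mul_le_mul_right h5 hσ0
    constructor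
    · refine hcσ.trans (mul_le_mul_of_nonneg_right ?_ hσ0.le)
      rw [hK]
      linarith
    · intro τ hτ
      have h1 := hcons w hw w' hw' hyr m hm τ hτ
      have hτ01 : |τ| ≤ 1 := (hS τ hτ).1
      have e1 : τ * ∑ i, Φ τ m i * (w.om i - w'.om i) = (w.c m 0 - w'.c m 0) * τ +
          (-(w.sub w').h m (Φ τ) τ) + (-(∑ i, Φ τ m i * (w.y i - w'.y i))) := by
        rw [hh τ]
        ring
      rw [← abs_mul, e1]
      have e3 := abs_add_three ((w.c m 0 - w'.c m 0) * τ) (-(w.sub w').h m (Φ τ) τ)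
        (-(∑ i, Φ τ m i * (w.y i - w'.y i)))
      rw [abs_neg, abs_neg] at e3
      have e4 := mul_le_mul_of_nonneg_left e3 (abs_nonneg (q.eval τ))
      refine e4.trans ?_
      have e5 : |q.eval τ| * |(w.c m 0 - w'.c m 0) * τ| ≤ K0 * (C3 * σ * 1) := by
        refine mul_le_mul (hq3 τ hτ01) ?_ (abs_nonneg _) hK0p.le
        rw [abs_mul]
        exact mul_le_mul hcσ hτ01 (abs_nonneg _) (by positivity)
      have e6 : |q.eval τ| * |∑ i, Φ τ m i * (w.y i - w'.y i)| ≤ K0 * (k * (B * η)) :=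
        mul_le_mul (hq3 τ hτ01) (hys τ hτ) (abs_nonneg _) hK0p.le
      have e7 : K0 * η ≤ K0 * σ := mul_le_mul_of_nonneg_left hησ hK0p.le
      have e8 : K0 * (k * (B * η)) ≤ K0 * (k * B) * σ := by
        have : K0 * (k * B) * η ≤ K0 * (k * B) * σ :=
          mul_le_mul_of_nonneg_left hησ (by positivity)
        linarith
      have e9 : (K0 + K0 * C3 + K0 * (k * B)) * σ ≤ K * σ := by
        refine mul_le_mul_of_nonneg_right ?_ hσ0.le
        rw [hK]
        linarith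
      have e10 : |q.eval τ| * (|(w.c m 0 - w'.c m 0) * τ| + |(w.sub w').h m (Φ τ) τ| +
          |∑ i, Φ τ m i * (w.y i - w'.y i)|) = |q.eval τ| * |(w.c m 0 - w'.c m 0) * τ| +
          |q.eval τ| * |(w.sub w').h m (Φ τ) τ| +
          |q.eval τ| * |∑ i, Φ τ m i * (w.y i - w'.y i)| := by ring
      rw [e10]
      linarith

end Pool.LP
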