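import Pool.Agent.H29.LP.Pigp

/-!
# Global conservation for polynomial motions

The displacement of a line at the time `τ` is `C τ - ∑ Φ i (τ) p i (τ)`, where `C` and `p i` are
polynomials of bounded degree which belong to the line, and `Φ` is the unknown frame, an arbitrary
function of the time. If the displacements of `k` lines with independent positions are small at
all times, then the displacement of every other line which is small on a short interval of times
is small at all times.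
-/

set_option autoImplicit false

namespace Pool.LP

open Finset Real Polynomial

variable {ι : Type} [Fintype ι] [DecidableEq ι]

/-- The data of a line (or of the difference of two lines). -/
structure Pv (ι : Type) where
  /-- the motion in the normal direction -/
  C : ℝ[X]
  /-- the coordinates of the position -/
  p : ι → ℝ[X]

/-- The difference of two lines. -/
noncomputable def Pv.sub (w w' : Pv ι) : Pv ι := ⟨w.C - w'.C, fun i => w.p i - w'.p i⟩

/-- The displacement at the time `τ` in the frame `Φ`. -/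
noncomputable def Pv.h (w : Pv ι) (Φ : ι → ℝ) (τ : ℝ) : ℝ :=
  w.C.eval τ - ∑ i, Φ i * (w.p i).eval τ

omit [DecidableEq ι] in
theorem Pv.h_sub (w w' : Pv ι) (Φ : ι → ℝ) (τ : ℝ) :
    (w.sub w').h Φ τ = w.h Φ τ - w'.h Φ τ := by
  unfold Pv.h Pv.sub
  have e2 : ∑ i, Φ i * (w.p i - w'.p i).eval τ =
      ∑ i, Φ i * (w.p i).eval τ - ∑ i, Φ i * (w'.p i).eval τ := by
    rw [← Finset.sum_sub_distrib]
    exact Finset.sum_congr rfl fun j _ => by rw [eval_sub]; ring
  show (w.C - w'.C).eval τ - ∑ i, Φ i * (w.p i - w'.p i).eval τ = _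
  rw [e2, eval_sub]
  ring

/-- The degree of the normal motion is at most `D`, the degrees of the positions are at most
`E`. -/
def Pv.deg (w : Pv ι) (D E : ℕ) : Prop := w.C.natDegree ≤ D ∧ ∀ i, (w.p i).natDegree ≤ E

/-- All values are bounded by `B`. -/
def Pv.bdd (w : Pv ι) (B : ℝ) : Prop :=
  ∀ τ : ℝ, |τ| ≤ 1 → |w.C.eval τ| ≤ B ∧ ∀ i, |(w.p i).eval τ| ≤ B

omit [Fintype ι] [DecidableEq ι] in
theorem Pv.deg_sub {w w' : Pv ι} {D E : ℕ} (h : w.deg D E) (h' : w'.deg D E) :
    (w.sub w').deg D E :=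
  ⟨(natDegree_sub_le _ _).trans (max_le h.1 h'.1),
    fun i => (natDegree_sub_le _ _).trans (max_le (h.2 i) (h'.2 i))⟩

omit [Fintype ι] [DecidableEq ι] in
theorem Pv.bdd_sub {w w' : Pv ι} {B B' : ℝ} (h : w.bdd B) (h' : w'.bdd B') :
    (w.sub w').bdd (B + B') := by
  intro τ hτ
  have h1 := h τ hτ
  have h2 := h' τ hτ
  refine ⟨?_, fun i => ?_⟩
  · show |(w.C - w'.C).eval τ| ≤ _
    rw [eval_sub]
    exact (abs_sub _ _).trans (add_le_add h1.1 h2.1)
  · show |(w.p i - w'.p i).eval τ| ≤ _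
    rw [eval_sub]
    exact (abs_sub _ _).trans (add_le_add (h1.2 i) (h2.2 i))

/-- The matrix of the positions of the lines `v i`. -/
noncomputable def posP (v : ι → Pv ι) : Matrix ι ι ℝ[X] := fun i j => (v i).p j

/-- The matrix of the positions at the time `τ`. -/
noncomputable def posE (v : ι → Pv ι) (τ : ℝ) : Matrix ι ι ℝ := fun i j => ((v i).p j).eval τ

/-- The bordered matrix of polynomials. -/
noncomputable def borP (v : ι → Pv ι) (e : Pv ι) : Matrix (ι ⊕ Unit) (ι ⊕ Unit) ℝ[X] :=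
  Matrix.fromBlocks (posP v) (fun i _ => (v i).C) (fun _ j => e.p j) (fun _ _ => e.C)

/-- The bordered matrix at the time `τ`. -/
noncomputable def borE (v : ι → Pv ι) (e : Pv ι) (τ : ℝ) : Matrix (ι ⊕ Unit) (ι ⊕ Unit) ℝ :=
  Matrix.fromBlocks (posE v τ) (fun i _ => (v i).C.eval τ) (fun _ j => (e.p j).eval τ)
    (fun _ _ => e.C.eval τ)

theorem det_eval {κ : Type} [Fintype κ] [DecidableEq κ] (P : Matrix κ κ ℝ[X]) (M : Matrix κ κ ℝ)
    (τ : ℝ) (h : ∀ a b, (P a b).eval τ = M a b) : P.det.eval τ = M.det := by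
  have h1 := RingHom.map_det (Polynomial.evalRingHom τ) P
  rw [Polynomial.coe_evalRingHom] at h1
  rw [h1]
  refine congrArg Matrix.det ?_
  ext a b
  rw [RingHom.mapMatrix_apply, Matrix.map_apply, Polynomial.coe_evalRingHom]
  exact h a b

theorem det_natDegree {κ : Type} [Fintype κ] [DecidableEq κ] (P : Matrix κ κ ℝ[X]) (r : κ → ℕ)
    (h : ∀ a b, (P a b).natDegree ≤ r b) : P.det.natDegree ≤ ∑ b, r b := by
  rw [Matrix.det_apply]
  refine Polynomial.natDegree_sum_le_of_forall_le _ _ fun σ _ => ?_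
  refine (Polynomial.natDegree_smul_le _ _).trans ?_
  refine (Polynomial.natDegree_prod_le _ _).trans ?_
  exact Finset.sum_le_sum fun i _ => h (σ i) i

theorem posP_eval (v : ι → Pv ι) (τ : ℝ) : (posP v).det.eval τ = (posE v τ).det :=
  det_eval _ _ _ fun _ _ => rfl

theorem borP_eval (v : ι → Pv ι) (e : Pv ι) (τ : ℝ) :
    (borP v e).det.eval τ = (borE v e τ).det := by
  refine det_eval _ _ _ fun a b => ?_
  rcases a with i | u <;> rcases b with j | u' <;>
    simp [borP, borE, posP, posE, Matrix.fromBlocks]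

theorem posP_natDegree (v : ι → Pv ι) (D E : ℕ) (hv : ∀ i, (v i).deg D E) :
    (posP v).det.natDegree ≤ Fintype.card ι * E := by
  have h := det_natDegree (posP v) (fun _ => E) fun i j => (hv i).2 j
  rwa [Finset.sum_const, Finset.card_univ, smul_eq_mul] at h

theorem borP_natDegree (v : ι → Pv ι) (e : Pv ι) (D E : ℕ) (hv : ∀ i, (v i).deg D E)
    (he : e.deg D E) : (borP v e).det.natDegree ≤ Fintype.card ι * E + D := by
  have h := det_natDegree (borP v e) (Sum.elim (fun _ => E) (fun _ => D)) ?_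
  · simpa [Fintype.sum_sum_type] using h
  · intro a b
    rcases a with i | u <;> rcases b with j | u'
    · exact (hv i).2 j
    · exact (hv i).1
    · exact he.2 j
    · exact he.1

omit [DecidableEq ι] in
/-- The displacements are the components of a matrix product. -/
theorem borE_mulVec (v : ι → Pv ι) (e : Pv ι) (Φ : ι → ℝ) (τ : ℝ) :
    (borE v e τ).mulVec (Sum.elim (fun i => -Φ i) (fun _ => 1)) =
      Sum.elim (fun i => (v i).h Φ τ) (fun _ => e.h Φ τ) := by
  have key : ∀ w : Pv ι, ∑ j, (w.p j).eval τ * -Φ j = -∑ j, Φ j * (w.p j).eval τ := by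
    intro w
    rw [← Finset.sum_neg_distrib]
    exact Finset.sum_congr rfl fun j _ => by ring
  ext a
  rcases a with i | u
  · simp only [Matrix.mulVec, dotProduct, Fintype.sum_sum_type, borE, posE, Matrix.fromBlocks,
      Matrix.of_apply, Sum.elim_inl, Sum.elim_inr, Finset.univ_unique, Finset.sum_singleton,
      mul_one, Pv.h]
    rw [key (v i)]
    ring
  · simp only [Matrix.mulVec, dotProduct, Fintype.sum_sum_type, borE, Matrix.fromBlocks,
      Matrix.of_apply, Sum.elim_inl, Sum.elim_inr, Finset.univ_unique, Finset.sum_singleton,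
      mul_one, Pv.h]
    rw [key e]
    ring

theorem adjE_inr (v : ι → Pv ι) (e : Pv ι) (τ : ℝ) :
    (borE v e τ).adjugate (Sum.inr ()) (Sum.inr ()) = (posE v τ).det := by
  rw [Matrix.adjugate_apply]
  have h : (borE v e τ).updateRow (Sum.inr ()) (Pi.single (Sum.inr ()) 1) =
      Matrix.fromBlocks (posE v τ) (fun i _ => (v i).C.eval τ) 0 1 := by
    ext a b
    rcases a with i | u
    · rw [Matrix.updateRow_ne (by simp)]
      rcases b with j | u' <;> rfl
    · obtain rfl : u = () := rfl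
      rw [Matrix.updateRow_self]
      rcases b with j | u'
      · simp [Matrix.fromBlocks]
      · simp [Matrix.fromBlocks]
  rw [h, Matrix.det_fromBlocks_zero₂₁, Matrix.det_one, mul_one]

/-- Cramer's rule for the bordered matrix. -/
theorem detE_identity (v : ι → Pv ι) (e : Pv ι) (Φ : ι → ℝ) (τ : ℝ) :
    (borE v e τ).det = (posE v τ).det * e.h Φ τ +
      ∑ i, (borE v e τ).adjugate (Sum.inr ()) (Sum.inl i) * (v i).h Φ τ := by
  have h1 := congrArg (fun x => (borE v e τ).adjugate.mulVec x) (borE_mulVec v e Φ τ)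
  simp only [Matrix.mulVec_mulVec, Matrix.adjugate_mul] at h1
  have h2 := congrFun h1 (Sum.inr ())
  rw [Matrix.smul_mulVec, Matrix.one_mulVec] at h2
  simp only [Pi.smul_apply, Sum.elim_inr, smul_eq_mul, mul_one] at h2
  rw [h2]
  simp only [Matrix.mulVec, dotProduct, Fintype.sum_sum_type, Sum.elim_inl, Sum.elim_inr,
    Finset.univ_unique, Finset.sum_singleton]
  rw [show (default : Unit) = () from rfl, adjE_inr]
  ring

/-! ### Bounds -/

/-- A bound for determinants and cofactors. -/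
noncomputable def dB (k : ℕ) (B : ℝ) : ℝ := ((k + 1).factorial : ℝ) * B ^ (k + 1)

theorem dB_nonneg (k : ℕ) (B : ℝ) (hB : 0 ≤ B) : 0 ≤ dB k B := by
  unfold dB
  positivity

theorem adj_abs_le {κ : Type} [Fintype κ] [DecidableEq κ] (A : Matrix κ κ ℝ) (B : ℝ) (hB : 1 ≤ B)
    (h : ∀ i j, |A i j| ≤ B) (a b : κ) :
    |A.adjugate a b| ≤ ((Fintype.card κ).factorial : ℝ) * B ^ Fintype.card κ := by
  rw [Matrix.adjugate_apply]
  refine abs_det_le _ B fun i j => ?_
  by_cases hi : i = b
  · subst hi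
    rw [Matrix.updateRow_self]
    by_cases hj : j = a
    · subst hj
      rw [Pi.single_eq_same, abs_one]
      exact hB
    · rw [Pi.single_eq_of_ne hj, abs_zero]
      linarith
  · rw [Matrix.updateRow_ne hi]
    exact h i j

theorem adjE_le (v : ι → Pv ι) (e : Pv ι) (B τ : ℝ) (hB : 1 ≤ B) (hv : ∀ i, (v i).bdd B)
    (he : e.bdd B) (hτ : |τ| ≤ 1) (a b : ι ⊕ Unit) :
    |(borE v e τ).adjugate a b| ≤ dB (Fintype.card ι) B := by
  have h := adj_abs_le (borE v e τ) B hB ?_ a b
  · rw [Fintype.card_sum, Fintype.card_unit] at h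
    exact h
  · intro a b
    rcases a with i | u <;> rcases b with j | u'
    · exact (hv i τ hτ).2 j
    · exact (hv i τ hτ).1
    · exact (he τ hτ).2 j
    · exact (he τ hτ).1

theorem posE_le (v : ι → Pv ι) (e : Pv ι) (B τ : ℝ) (hB : 1 ≤ B)
    (hv : ∀ i, (v i).bdd B) (he : e.bdd B) (hτ : |τ| ≤ 1) :
    |(posE v τ).det| ≤ dB (Fintype.card ι) B := by
  rw [← adjE_inr v e τ]
  exact adjE_le v e B τ hB hv he hτ _ _

/-- **Global conservation.** Let `Φ` be a frame, defined on a dense set `S` of times, and suppose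
that the displacements of the lines `v i` are small at all times of `S`, and that the displacement
of `e` is small at the times of `S` in an interval of length `r`. Then the displacement of `e` is
small at all times of `S` at which the determinant of the positions of the lines `v i` is not
small. -/
theorem globalP (v : ι → Pv ι) (e : Pv ι) (D E : ℕ) (hD : 1 ≤ D) (Φ : ℝ → ι → ℝ) (S : Set ℝ)
    (B η r a ε : ℝ) (hB : 1 ≤ B) (hvd : ∀ i, (v i).deg D E) (hed : e.deg D E)
    (hv : ∀ i, (v i).bdd B) (he : e.bdd B) (hη : 0 ≤ η)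
    (hS : ∀ τ ∈ S, |τ| ≤ 1) (hr : 0 < r) (hr1 : r ≤ 1)
    (hε : ε ≤ r / (4 * ((Fintype.card ι : ℝ) * E + D)))
    (hden : ∀ x, a ≤ x → x ≤ a + r → ∃ τ ∈ S, |τ - x| ≤ ε)
    (h1 : ∀ τ ∈ S, ∀ i, |(v i).h (Φ τ) τ| ≤ η)
    (h2 : ∀ τ ∈ S, a - ε ≤ τ → τ ≤ a + r + ε → |e.h (Φ τ) τ| ≤ η) :
    ∀ τ ∈ S, |(posE v τ).det| * |e.h (Φ τ) τ| ≤
      ((Fintype.card ι : ℝ) * E + D + 2) * ((Fintype.card ι : ℝ) + 1) * dB (Fintype.card ι) B *
        (4 * ((Fintype.card ι : ℝ) * E + D) / r) ^ (Fintype.card ι * E + D) * η := by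
  set k : ℕ := Fintype.card ι with hk
  set A : ℝ := dB k B with hA
  have hA0 : 0 ≤ A := dB_nonneg k B (by linarith)
  set N : ℕ := k * E + D with hN
  have hN1 : 1 ≤ N := by
    have : 0 ≤ k * E := Nat.zero_le _
    omega
  have hNr : (1 : ℝ) ≤ N := by exact_mod_cast hN1
  have hNc : ((k : ℝ) * E + D) = (N : ℝ) := by rw [hN]; push_cast; ring
  rw [hNc] at hε ⊢
  set P : ℝ[X] := (borP v e).det with hP
  have hsum : ∀ τ ∈ S, |∑ i, (borE v e τ).adjugate (Sum.inr ()) (Sum.inl i) * (v i).h (Φ τ) τ| ≤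
      (k : ℝ) * A * η := by
    intro τ hτ
    calc |∑ i, (borE v e τ).adjugate (Sum.inr ()) (Sum.inl i) * (v i).h (Φ τ) τ|
        ≤ ∑ i, |(borE v e τ).adjugate (Sum.inr ()) (Sum.inl i) * (v i).h (Φ τ) τ| :=
          Finset.abs_sum_le_sum_abs _ _
      _ ≤ ∑ _i : ι, A * η := by
          refine Finset.sum_le_sum fun i _ => ?_
          rw [abs_mul]
          exact mul_le_mul (adjE_le v e B τ hB hv he (hS τ hτ) _ _) (h1 τ hτ i) (abs_nonneg _) hA0
      _ = (k : ℝ) * A * η := by
          rw [Finset.sum_const, Finset.card_univ, nsmul_eq_mul, ← hk]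
          ring
  have hPe : ∀ τ, P.eval τ = (posE v τ).det * e.h (Φ τ) τ +
      ∑ i, (borE v e τ).adjugate (Sum.inr ()) (Sum.inl i) * (v i).h (Φ τ) τ := by
    intro τ
    rw [hP, borP_eval, detE_identity v e (Φ τ) τ]
  have hnear : ∀ τ ∈ S, a - ε ≤ τ → τ ≤ a + r + ε → |P.eval τ| ≤ ((k : ℝ) + 1) * A * η := by
    intro τ hτ ha hb
    rw [hPe τ]
    have h3 : |(posE v τ).det * e.h (Φ τ) τ| ≤ A * η := by
      rw [abs_mul]
      exact mul_le_mul (posE_le v e B τ hB hv he (hS τ hτ)) (h2 τ hτ ha hb) (abs_nonneg _) hA0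
    calc _ ≤ |(posE v τ).det * e.h (Φ τ) τ| +
          |∑ i, (borE v e τ).adjugate (Sum.inr ()) (Sum.inl i) * (v i).h (Φ τ) τ| :=
          abs_add_le _ _
      _ ≤ A * η + (k : ℝ) * A * η := add_le_add h3 (hsum τ hτ)
      _ = _ := by ring
  -- the nodes
  have hex : ∀ l : ℕ, ∃ τ ∈ S, l ≤ N → |τ - (a + r * ((l : ℝ) / N))| ≤ ε := by
    intro l
    by_cases hl : l ≤ N
    · have h5 : (l : ℝ) / N ≤ 1 := by
        rw [div_le_one (by linarith)]
        exact_mod_cast hl
      have h6 : 0 ≤ (l : ℝ) / N := by positivity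
      obtain ⟨τ, hτ, h7⟩ := hden (a + r * ((l : ℝ) / N)) (by nlinarith) (by nlinarith)
      exact ⟨τ, hτ, fun _ => h7⟩
    · obtain ⟨τ, hτ, _⟩ := hden a le_rfl (by linarith)
      exact ⟨τ, hτ, fun h => absurd h hl⟩
  choose x hxS hxn using hex
  have hε2 : 2 * ε ≤ r / (2 * N) := by
    calc 2 * ε ≤ 2 * (r / (4 * N)) := by linarith
      _ = r / (2 * N) := by
          field_simp
          ring
  have hs : 0 < r / (2 * (N : ℝ)) := by positivity
  have hxs : ∀ i j, i < j → j ≤ N → r / (2 * (N : ℝ)) ≤ x j - x i := by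
    intro i j hij hj
    have h8 := abs_le.1 (hxn i (by omega))
    have h9 := abs_le.1 (hxn j hj)
    have h10 : (1 : ℝ) ≤ (j : ℝ) - i := by
      have : (i : ℝ) + 1 ≤ j := by exact_mod_cast hij
      linarith
    have h11 : r * ((j : ℝ) / N) - r * ((i : ℝ) / N) = r / N * ((j : ℝ) - i) := by
      field_simp
    have h12 : r / N ≤ r / N * ((j : ℝ) - i) := by
      have : 0 ≤ r / (N : ℝ) := by positivity
      nlinarith
    have h13 : r / (N : ℝ) = r / (2 * N) + r / (2 * N) := by
      field_simp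
      ring
    linarith [h8.1, h8.2, h9.1, h9.2]
  intro τ hτ
  have hB2 : ∀ i, i ≤ N → |τ - x i| ≤ 2 := by
    intro i _
    have h14 := abs_le.1 (hS τ hτ)
    have h15 := abs_le.1 (hS (x i) (hxS i))
    rw [abs_le]
    constructor <;> linarith [h14.1, h14.2, h15.1, h15.2]
  have hM : ∀ i, i ≤ N → |P.eval (x i)| ≤ ((k : ℝ) + 1) * A * η := by
    intro i hi
    have h8 := abs_le.1 (hxn i hi)
    have h5 : (i : ℝ) / N ≤ 1 := by
      rw [div_le_one (by linarith)]
      exact_mod_cast hi
    have h6 : 0 ≤ (i : ℝ) / N := by positivity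
    refine hnear (x i) (hxS i) ?_ ?_
    · nlinarith [h8.1]
    · nlinarith [h8.2]
  have hbd := Pool.KAL.RMM.lagrange_bound N P (borP_natDegree v e D E hvd hed) x (r / (2 * N)) 2
    (((k : ℝ) + 1) * A * η) τ hs hxs hB2 hM
  have h16 : (2 : ℝ) / (r / (2 * N)) = 4 * N / r := by
    field_simp
    ring
  rw [h16] at hbd
  have h17 : (1 : ℝ) ≤ 4 * N / r := by
    rw [le_div_iff₀ hr]
    nlinarith
  have h18 : (1 : ℝ) ≤ (4 * N / r) ^ N := one_le_pow₀ h17
  have h19 : |(posE v τ).det| * |e.h (Φ τ) τ| ≤ |P.eval τ| + (k : ℝ) * A * η := by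
    rw [← abs_mul]
    have h20 : (posE v τ).det * e.h (Φ τ) τ = P.eval τ -
        ∑ i, (borE v e τ).adjugate (Sum.inr ()) (Sum.inl i) * (v i).h (Φ τ) τ := by
      rw [hPe τ]
      ring
    rw [h20]
    exact (abs_sub _ _).trans (add_le_add le_rfl (hsum τ hτ))
  have h21 : (k : ℝ) * A * η ≤ ((k : ℝ) + 1) * A * η * (4 * N / r) ^ N := by
    have h22 : 0 ≤ A * η := by positivity
    have h23 : (0 : ℝ) ≤ k := by positivity
    nlinarith [mul_nonneg h23 h22, mul_le_mul_of_nonneg_left h18
      (show (0 : ℝ) ≤ ((k : ℝ) + 1) * A * η by positivity)]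
  calc _ ≤ |P.eval τ| + (k : ℝ) * A * η := h19
    _ ≤ ((N : ℝ) + 1) * ((4 * N / r) ^ N * (((k : ℝ) + 1) * A * η)) +
        ((k : ℝ) + 1) * A * η * (4 * N / r) ^ N := add_le_add hbd h21
    _ = _ := by ring

/-- The numerator of the `i`-th component of the frame. -/
noncomputable def numP (v : ι → Pv ι) (i : ι) : ℝ[X] :=
  ∑ j, (posP v).adjugate i j * (v j).C

theorem adjugate_eval {κ : Type} [Fintype κ] [DecidableEq κ] (P : Matrix κ κ ℝ[X])
    (M : Matrix κ κ ℝ) (τ : ℝ) (h : ∀ a b, (P a b).eval τ = M a b) (a b : κ) :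
    (P.adjugate a b).eval τ = M.adjugate a b := by
  rw [Matrix.adjugate_apply, Matrix.adjugate_apply]
  refine det_eval _ _ _ fun i j => ?_
  by_cases hi : i = b
  · subst hi
    rw [Matrix.updateRow_self, Matrix.updateRow_self]
    by_cases hj : j = a
    · subst hj
      rw [Pi.single_eq_same, Pi.single_eq_same, eval_one]
    · rw [Pi.single_eq_of_ne hj, Pi.single_eq_of_ne hj, eval_zero]
  · rw [Matrix.updateRow_ne hi, Matrix.updateRow_ne hi]
    exact h i j

theorem adjugate_natDegree {κ : Type} [Fintype κ] [DecidableEq κ] (P : Matrix κ κ ℝ[X]) (E : ℕ)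
    (h : ∀ a b, (P a b).natDegree ≤ E) (a b : κ) :
    (P.adjugate a b).natDegree ≤ (Fintype.card κ - 1) * E := by
  rw [Matrix.adjugate_apply, ← Matrix.det_transpose]
  refine (det_natDegree _ (fun i => if i = b then 0 else E) fun i j => ?_).trans ?_
  · rw [Matrix.transpose_apply]
    by_cases hj : j = b
    · subst hj
      rw [Matrix.updateRow_self, if_pos rfl]
      by_cases hi : i = a
      · subst hi
        rw [Pi.single_eq_same, natDegree_one]
      · rw [Pi.single_eq_of_ne hi, natDegree_zero]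
    · rw [Matrix.updateRow_ne hj, if_neg hj]
      exact h j i
  · rw [Finset.sum_ite, Finset.sum_const_zero, zero_add, Finset.sum_const, smul_eq_mul]
    refine Nat.mul_le_mul_right _ (le_of_eq ?_)
    rw [Finset.filter_ne', Finset.card_erase_of_mem (Finset.mem_univ _), Finset.card_univ]

theorem numP_natDegree (v : ι → Pv ι) (D E : ℕ) (hv : ∀ i, (v i).deg D E) (i : ι) :
    (numP v i).natDegree ≤ (Fintype.card ι - 1) * E + D := by
  unfold numP
  refine Polynomial.natDegree_sum_le_of_forall_le _ _ fun j _ => ?_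
  refine natDegree_mul_le.trans ?_
  exact Nat.add_le_add (adjugate_natDegree (posP v) E (fun a b => (hv a).2 b) i j) (hv j).1

/-- The numerators are bounded. -/
theorem numP_le (v : ι → Pv ι) (B : ℝ) (hB : 1 ≤ B) (hv : ∀ i, (v i).bdd B) (τ : ℝ)
    (hτ : |τ| ≤ 1) (i : ι) :
    |(numP v i).eval τ| ≤ (Fintype.card ι : ℝ) * (dB (Fintype.card ι) B * B) := by
  unfold numP
  rw [eval_finsetSum]
  calc |∑ j, ((posP v).adjugate i j * (v j).C).eval τ|
      ≤ ∑ j, |((posP v).adjugate i j * (v j).C).eval τ| := Finset.abs_sum_le_sum_abs _ _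
    _ ≤ ∑ _j : ι, dB (Fintype.card ι) B * B := by
        refine Finset.sum_le_sum fun j _ => ?_
        rw [eval_mul, abs_mul, adjugate_eval (posP v) (posE v τ) τ (fun _ _ => rfl)]
        refine mul_le_mul ?_ (hv j τ hτ).1 (abs_nonneg _) (dB_nonneg _ B (by linarith))
        refine (adj_abs_le (posE v τ) B hB (fun a b => (hv a τ hτ).2 b) i j).trans ?_
        unfold dB
        have h2 : (((Fintype.card ι).factorial : ℕ) : ℝ) ≤
            (((Fintype.card ι + 1).factorial : ℕ) : ℝ) := by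
          exact_mod_cast Nat.factorial_le (Nat.le_succ _)
        have h3 : B ^ Fintype.card ι ≤ B ^ (Fintype.card ι + 1) :=
          pow_le_pow_right₀ hB (Nat.le_succ _)
        exact mul_le_mul h2 h3 (by positivity) (by positivity)
    _ = _ := by rw [Finset.sum_const, Finset.card_univ, nsmul_eq_mul]

/-- **The frame is a rational function of the time.** -/
theorem frame_rational (v : ι → Pv ι) (B η : ℝ) (hB : 1 ≤ B) (hv : ∀ i, (v i).bdd B)
    (Φ : ι → ℝ) (τ : ℝ) (hτ : |τ| ≤ 1) (h1 : ∀ i, |(v i).h Φ τ| ≤ η) (i : ι) :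
    |(posP v).det.eval τ * Φ i - (numP v i).eval τ| ≤
      (Fintype.card ι : ℝ) * dB (Fintype.card ι) B * η := by
  set k : ℕ := Fintype.card ι with hk
  have hη : 0 ≤ η := (abs_nonneg _).trans (h1 i)
  have e1 : (posE v τ).mulVec Φ = fun j => (v j).C.eval τ - (v j).h Φ τ := by
    ext j
    simp only [Matrix.mulVec, dotProduct, posE, Pv.h]
    rw [sub_sub_cancel]
    exact Finset.sum_congr rfl fun l _ => by ring
  have e2 := congrArg (fun x => (posE v τ).adjugate.mulVec x) e1
  simp only [Matrix.mulVec_mulVec, Matrix.adjugate_mul] at e2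
  have e3 := congrFun e2 i
  rw [Matrix.smul_mulVec, Matrix.one_mulVec] at e3
  simp only [Pi.smul_apply, smul_eq_mul, Matrix.mulVec, dotProduct] at e3
  have e4 : (numP v i).eval τ = ∑ j, (posE v τ).adjugate i j * (v j).C.eval τ := by
    unfold numP
    rw [eval_finsetSum]
    refine Finset.sum_congr rfl fun j _ => ?_
    rw [eval_mul, adjugate_eval (posP v) (posE v τ) τ (fun _ _ => rfl)]
  rw [posP_eval, e3, e4, ← Finset.sum_sub_distrib]
  calc |∑ j, ((posE v τ).adjugate i j * ((v j).C.eval τ - (v j).h Φ τ) -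
          (posE v τ).adjugate i j * (v j).C.eval τ)|
      ≤ ∑ j, |(posE v τ).adjugate i j * ((v j).C.eval τ - (v j).h Φ τ) -
          (posE v τ).adjugate i j * (v j).C.eval τ| := Finset.abs_sum_le_sum_abs _ _
    _ ≤ ∑ _j : ι, dB k B * η := by
        refine Finset.sum_le_sum fun j _ => ?_
        have e5 : (posE v τ).adjugate i j * ((v j).C.eval τ - (v j).h Φ τ) -
          (posE v τ).adjugate i j * (v j).C.eval τ = -((posE v τ).adjugate i j * (v j).h Φ τ) := by
          ring
        rw [e5, abs_neg, abs_mul]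
        refine mul_le_mul ?_ (h1 j) (abs_nonneg _) (dB_nonneg k B (by linarith))
        refine (adj_abs_le (posE v τ) B hB (fun a b => (hv a τ hτ).2 b) i j).trans ?_
        unfold dB
        rw [← hk]
        have h2 : ((k.factorial : ℕ) : ℝ) ≤ (((k + 1).factorial : ℕ) : ℝ) := by
          exact_mod_cast Nat.factorial_le (Nat.le_succ k)
        have h3 : B ^ k ≤ B ^ (k + 1) := pow_le_pow_right₀ hB (Nat.le_succ k)
        exact mul_le_mul h2 h3 (by positivity) (by positivity)
    _ = _ := by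
        rw [Finset.sum_const, Finset.card_univ, nsmul_eq_mul, ← hk]
        ring

theorem numP_zero (v : ι → Pv ι) (i : ι) (h : ∀ j, (v j).C.eval 0 = 0) :
    (numP v i).eval 0 = 0 := by
  unfold numP
  rw [eval_finsetSum]
  exact Finset.sum_eq_zero fun j _ => by rw [eval_mul, h j, mul_zero]

end Pool.LP
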