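import Pool.Agent.H20.KAL.RMM

/-!
# Lemma P: lines through one point have the same displacement at all times

One value of a critical context is fixed. The data of a line are the position `y`, the velocity
`om` and the coefficients `c` of its normal motion. The displacement of the line at the time `τ`,
measured in the frame `Φ`, is `∑ c j τ ^ (j + 1) - ∑ Φ i (y i + τ om i)`.
-/

set_option autoImplicit false

namespace Pool.LP

open Finset Real Polynomial

variable {ι : Type} [Fintype ι] [DecidableEq ι] {d : ℕ}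

/-- The data of a line in a context: position, velocity, coefficients of the normal motion. -/
structure Val (ι : Type) (d : ℕ) where
  /-- position -/
  y : ι → ℝ
  /-- velocity -/
  om : ι → ℝ
  /-- coefficients of the normal motion -/
  c : Fin d → ℝ

/-- The difference of two lines. -/
def Val.sub (w w' : Val ι d) : Val ι d where
  y := fun i => w.y i - w'.y i
  om := fun i => w.om i - w'.om i
  c := fun j => w.c j - w'.c j

/-- The displacement at the time `τ` in the frame `Φ`. -/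
def Val.h (w : Val ι d) (Φ : ι → ℝ) (τ : ℝ) : ℝ :=
  ∑ j : Fin d, w.c j * τ ^ ((j : ℕ) + 1) - ∑ i, Φ i * (w.y i + τ * w.om i)

omit [DecidableEq ι] in
theorem Val.h_sub (w w' : Val ι d) (Φ : ι → ℝ) (τ : ℝ) :
    (w.sub w').h Φ τ = w.h Φ τ - w'.h Φ τ := by
  unfold Val.h Val.sub
  have e1 : ∑ j : Fin d, (w.c j - w'.c j) * τ ^ ((j : ℕ) + 1) =
      ∑ j : Fin d, w.c j * τ ^ ((j : ℕ) + 1) - ∑ j : Fin d, w'.c j * τ ^ ((j : ℕ) + 1) := by
    rw [← Finset.sum_sub_distrib]
    exact Finset.sum_congr rfl fun j _ => by ring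
  have e2 : ∑ i, Φ i * (w.y i - w'.y i + τ * (w.om i - w'.om i)) =
      ∑ i, Φ i * (w.y i + τ * w.om i) - ∑ i, Φ i * (w'.y i + τ * w'.om i) := by
    rw [← Finset.sum_sub_distrib]
    exact Finset.sum_congr rfl fun j _ => by ring
  simp only [e1, e2]
  ring

/-- All data are bounded by `B`. -/
def Val.bdd (w : Val ι d) (B : ℝ) : Prop :=
  (∀ i, |w.y i| ≤ B) ∧ (∀ i, |w.om i| ≤ B) ∧ ∀ j, |w.c j| ≤ B

/-- The matrix of the positions of the lines `v i` at the time `τ`. -/
def posM (v : ι → Val ι d) (τ : ℝ) : Matrix ι ι ℝ := fun i j => (v i).y j + τ * (v i).om j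

/-- The bordered matrix. -/
def bigM (v : ι → Val ι d) (e : Val ι d) (τ : ℝ) : Matrix (ι ⊕ Unit) (ι ⊕ Unit) ℝ :=
  Matrix.fromBlocks (posM v τ) (fun i _ => ∑ j : Fin d, (v i).c j * τ ^ ((j : ℕ) + 1))
    (fun _ j => e.y j + τ * e.om j) (fun _ _ => ∑ j : Fin d, e.c j * τ ^ ((j : ℕ) + 1))

/-- The bordered matrix as a matrix of polynomials. -/
noncomputable def polM (v : ι → Val ι d) (e : Val ι d) : Matrix (ι ⊕ Unit) (ι ⊕ Unit) ℝ[X] :=
  Matrix.fromBlocks (fun i j => C ((v i).y j) + X * C ((v i).om j))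
    (fun i _ => ∑ j : Fin d, C ((v i).c j) * X ^ ((j : ℕ) + 1))
    (fun _ j => C (e.y j) + X * C (e.om j))
    (fun _ _ => ∑ j : Fin d, C (e.c j) * X ^ ((j : ℕ) + 1))

omit [Fintype ι] [DecidableEq ι] in
theorem polM_eval (v : ι → Val ι d) (e : Val ι d) (τ : ℝ) (a b : ι ⊕ Unit) :
    (polM v e a b).eval τ = bigM v e τ a b := by
  rcases a with i | u <;> rcases b with j | u'
  · simp only [polM, bigM, posM, Matrix.fromBlocks, Matrix.of_apply, Sum.elim_inl,
      eval_add, eval_mul, eval_C, eval_X]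
  · simp only [polM, bigM, Matrix.fromBlocks, Matrix.of_apply, Sum.elim_inl, Sum.elim_inr,
      eval_finsetSum, eval_mul, eval_C, eval_X, eval_pow]
  · simp only [polM, bigM, Matrix.fromBlocks, Matrix.of_apply, Sum.elim_inl, Sum.elim_inr,
      eval_add, eval_mul, eval_C, eval_X]
  · simp only [polM, bigM, Matrix.fromBlocks, Matrix.of_apply, Sum.elim_inr,
      eval_finsetSum, eval_mul, eval_C, eval_X, eval_pow]

theorem polM_det_eval (v : ι → Val ι d) (e : Val ι d) (τ : ℝ) :
    (polM v e).det.eval τ = (bigM v e τ).det := by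
  have h := RingHom.map_det (Polynomial.evalRingHom τ) (polM v e)
  rw [Polynomial.coe_evalRingHom] at h
  rw [h]
  refine congrArg Matrix.det ?_
  ext a b
  rw [RingHom.mapMatrix_apply, Matrix.map_apply, Polynomial.coe_evalRingHom]
  exact polM_eval v e τ a b

/-- Degrees of the columns. -/
def colDeg (d : ℕ) : ι ⊕ Unit → ℕ
  | Sum.inl _ => 1
  | Sum.inr _ => d

omit [Fintype ι] [DecidableEq ι] in
theorem polM_natDegree (v : ι → Val ι d) (e : Val ι d) (a b : ι ⊕ Unit) :
    (polM v e a b).natDegree ≤ colDeg d b := by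
  have h1 : ∀ x y : ℝ, (C x + X * C y : ℝ[X]).natDegree ≤ 1 := by
    intro x y
    refine (Polynomial.natDegree_add_le _ _).trans (max_le ?_ ?_)
    · rw [Polynomial.natDegree_C]
      omega
    · refine (Polynomial.natDegree_mul_le).trans ?_
      rw [Polynomial.natDegree_C]
      have := Polynomial.natDegree_X_le (R := ℝ)
      omega
  have h2 : ∀ c : Fin d → ℝ, (∑ j : Fin d, C (c j) * X ^ ((j : ℕ) + 1) : ℝ[X]).natDegree ≤ d := by
    intro c
    refine Polynomial.natDegree_sum_le_of_forall_le _ _ fun j _ => ?_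
    refine (Polynomial.natDegree_C_mul_X_pow_le _ _).trans ?_
    have := j.2
    omega
  rcases a with i | u <;> rcases b with j | u'
  · exact h1 _ _
  · exact h2 _
  · exact h1 _ _
  · exact h2 _

theorem polM_det_natDegree (v : ι → Val ι d) (e : Val ι d) :
    (polM v e).det.natDegree ≤ Fintype.card ι + d := by
  rw [Matrix.det_apply]
  refine Polynomial.natDegree_sum_le_of_forall_le _ _ fun σ _ => ?_
  refine (Polynomial.natDegree_smul_le _ _).trans ?_
  refine (Polynomial.natDegree_prod_le _ _).trans ?_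
  refine (Finset.sum_le_sum fun i _ => polM_natDegree v e (σ i) i).trans ?_
  rw [Fintype.sum_sum_type]
  simp [colDeg]

omit [DecidableEq ι] in
/-- The displacements are the components of a matrix product. -/
theorem bigM_mulVec (v : ι → Val ι d) (e : Val ι d) (Φ : ι → ℝ) (τ : ℝ) :
    (bigM v e τ).mulVec (Sum.elim (fun i => -Φ i) (fun _ => 1)) =
      Sum.elim (fun i => (v i).h Φ τ) (fun _ => e.h Φ τ) := by
  ext a
  rcases a with i | u
  · simp only [Matrix.mulVec, dotProduct, Fintype.sum_sum_type, bigM, posM, Matrix.fromBlocks,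
      Matrix.of_apply, Sum.elim_inl, Sum.elim_inr, Finset.univ_unique, Finset.sum_singleton,
      mul_one, Val.h]
    have e1 : ∑ j, ((v i).y j + τ * (v i).om j) * -Φ j =
        -∑ j, Φ j * ((v i).y j + τ * (v i).om j) := by
      rw [← Finset.sum_neg_distrib]
      exact Finset.sum_congr rfl fun j _ => by ring
    rw [e1]
    ring
  · simp only [Matrix.mulVec, dotProduct, Fintype.sum_sum_type, bigM, Matrix.fromBlocks,
      Matrix.of_apply, Sum.elim_inl, Sum.elim_inr, Finset.univ_unique, Finset.sum_singleton,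
      mul_one, Val.h]
    have e1 : ∑ j, (e.y j + τ * e.om j) * -Φ j = -∑ j, Φ j * (e.y j + τ * e.om j) := by
      rw [← Finset.sum_neg_distrib]
      exact Finset.sum_congr rfl fun j _ => by ring
    rw [e1]
    ring

theorem adj_inr (v : ι → Val ι d) (e : Val ι d) (τ : ℝ) :
    (bigM v e τ).adjugate (Sum.inr ()) (Sum.inr ()) = (posM v τ).det := by
  rw [Matrix.adjugate_apply]
  have h : (bigM v e τ).updateRow (Sum.inr ()) (Pi.single (Sum.inr ()) 1) =
      Matrix.fromBlocks (posM v τ)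
        (fun i _ => ∑ j : Fin d, (v i).c j * τ ^ ((j : ℕ) + 1)) 0 1 := by
    ext a b
    rcases a with i | u
    · rw [Matrix.updateRow_ne (by simp)]
      rcases b with j | u' <;> rfl
    · obtain rfl : u = () := rfl
      rw [Matrix.updateRow_self]
      rcases b with j | u'
      · simp [Matrix.fromBlocks]
      · simp [Matrix.fromBlocks]
  rw [h, Matrix.det_fromBlocks_zero₂₁, Matrix.det_one, mul_one]

/-- Cramer's rule for the bordered matrix. -/
theorem det_identity (v : ι → Val ι d) (e : Val ι d) (Φ : ι → ℝ) (τ : ℝ) :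
    (bigM v e τ).det = (posM v τ).det * e.h Φ τ +
      ∑ i, (bigM v e τ).adjugate (Sum.inr ()) (Sum.inl i) * (v i).h Φ τ := by
  have h1 := congrArg (fun x => (bigM v e τ).adjugate.mulVec x) (bigM_mulVec v e Φ τ)
  simp only [Matrix.mulVec_mulVec, Matrix.adjugate_mul] at h1
  have h2 := congrFun h1 (Sum.inr ())
  rw [Matrix.smul_mulVec, Matrix.one_mulVec] at h2
  simp only [Pi.smul_apply, Sum.elim_inr, smul_eq_mul, mul_one] at h2
  rw [h2]
  simp only [Matrix.mulVec, dotProduct, Fintype.sum_sum_type, Sum.elim_inl, Sum.elim_inr,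
    Finset.univ_unique, Finset.sum_singleton]
  rw [show (default : Unit) = () from rfl, adj_inr]
  ring

/-! ### Bounds -/

/-- A bound for determinants and cofactors. -/
noncomputable def detB (k d : ℕ) (B : ℝ) : ℝ := ((k + 1).factorial : ℝ) * (((d : ℝ) + 2) * B) ^ (k + 1)

omit [Fintype ι] [DecidableEq ι] in
theorem bigM_le (v : ι → Val ι d) (e : Val ι d) (B τ : ℝ) (hB : 1 ≤ B) (hv : ∀ i, (v i).bdd B)
    (he : e.bdd B) (hτ : |τ| ≤ 1) (a b : ι ⊕ Unit) : |bigM v e τ a b| ≤ ((d : ℝ) + 2) * B := by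
  have h1 : ∀ x y : ℝ, |x| ≤ B → |y| ≤ B → |x + τ * y| ≤ ((d : ℝ) + 2) * B := by
    intro x y hx hy
    have h2 : |τ * y| ≤ B := by
      rw [abs_mul]
      calc |τ| * |y| ≤ 1 * B := mul_le_mul hτ hy (abs_nonneg _) zero_le_one
        _ = B := one_mul B
    have h3 : (0 : ℝ) ≤ (d : ℝ) * B := by positivity
    calc |x + τ * y| ≤ |x| + |τ * y| := abs_add_le _ _
      _ ≤ B + B := add_le_add hx h2
      _ ≤ _ := by nlinarith
  have h4 : ∀ c : Fin d → ℝ, (∀ j, |c j| ≤ B) →
      |∑ j : Fin d, c j * τ ^ ((j : ℕ) + 1)| ≤ ((d : ℝ) + 2) * B := by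
    intro c hc
    calc |∑ j : Fin d, c j * τ ^ ((j : ℕ) + 1)| ≤ ∑ j : Fin d, |c j * τ ^ ((j : ℕ) + 1)| :=
          Finset.abs_sum_le_sum_abs _ _
      _ ≤ ∑ _j : Fin d, B := by
          refine Finset.sum_le_sum fun j _ => ?_
          rw [abs_mul, abs_pow]
          have h5 : |τ| ^ ((j : ℕ) + 1) ≤ 1 := pow_le_one₀ (abs_nonneg _) hτ
          calc |c j| * |τ| ^ ((j : ℕ) + 1) ≤ B * 1 :=
                mul_le_mul (hc j) h5 (by positivity) (by linarith)
            _ = B := mul_one B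
      _ = (d : ℝ) * B := by simp
      _ ≤ _ := by nlinarith
  rcases a with i | u <;> rcases b with j | u'
  · exact h1 _ _ ((hv i).1 j) ((hv i).2.1 j)
  · exact h4 _ (hv i).2.2
  · exact h1 _ _ (he.1 j) (he.2.1 j)
  · exact h4 _ he.2.2

theorem abs_det_le {κ : Type} [Fintype κ] [DecidableEq κ] (A : Matrix κ κ ℝ) (x : ℝ)
    (h : ∀ i j, |A i j| ≤ x) : |A.det| ≤ ((Fintype.card κ).factorial : ℝ) * x ^ Fintype.card κ := by
  have := Matrix.det_le (R := ℝ) (S := ℝ) (A := A) (abv := IsAbsoluteValue.toAbsoluteValue abs)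
    (x := x) h
  rwa [nsmul_eq_mul] at this

theorem adj_le (v : ι → Val ι d) (e : Val ι d) (B τ : ℝ) (hB : 1 ≤ B) (hv : ∀ i, (v i).bdd B)
    (he : e.bdd B) (hτ : |τ| ≤ 1) (a b : ι ⊕ Unit) :
    |(bigM v e τ).adjugate a b| ≤ detB (Fintype.card ι) d B := by
  rw [Matrix.adjugate_apply]
  have hB' : 1 ≤ ((d : ℝ) + 2) * B := by
    have : (0 : ℝ) ≤ d := by positivity
    nlinarith
  refine (abs_det_le _ (((d : ℝ) + 2) * B) fun i j => ?_).trans ?_
  · by_cases hi : i = b
    · subst hi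
      rw [Matrix.updateRow_self]
      by_cases hj : j = a
      · subst hj
        rw [Pi.single_eq_same, abs_one]
        exact hB'
      · rw [Pi.single_eq_of_ne hj, abs_zero]
        linarith
    · rw [Matrix.updateRow_ne hi]
      exact bigM_le v e B τ hB hv he hτ i j
  · rw [Fintype.card_sum, Fintype.card_unit]
    exact le_rfl

theorem posM_det_le (v : ι → Val ι d) (e : Val ι d) (B τ : ℝ) (hB : 1 ≤ B)
    (hv : ∀ i, (v i).bdd B) (he : e.bdd B) (hτ : |τ| ≤ 1) :
    |(posM v τ).det| ≤ detB (Fintype.card ι) d B := by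
  rw [← adj_inr v e τ]
  exact adj_le v e B τ hB hv he hτ _ _

theorem detB_nonneg (k d : ℕ) (B : ℝ) (hB : 1 ≤ B) : 0 ≤ detB k d B := by
  unfold detB
  have : (0 : ℝ) ≤ ((d : ℝ) + 2) * B := by positivity
  positivity

/-- **Global conservation for two lines through one point.** Let `Φ` be a frame, defined on a
dense set `S` of times, and suppose that the displacements of the lines `v i` are small at all
times of `S`, and that the displacement of `e` is small at the times of `S` in an interval of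
length `r`. Then the displacement of `e` is small at all times of `S` at which the determinant of
the positions of the lines `v i` is not small. -/
theorem global (v : ι → Val ι d) (e : Val ι d) (hd : 1 ≤ d) (Φ : ℝ → ι → ℝ) (S : Set ℝ)
    (B η r a ε : ℝ) (hB : 1 ≤ B) (hv : ∀ i, (v i).bdd B) (he : e.bdd B) (hη : 0 ≤ η)
    (hS : ∀ τ ∈ S, |τ| ≤ 1) (hr : 0 < r) (hr1 : r ≤ 1)
    (hε : ε ≤ r / (4 * ((Fintype.card ι : ℝ) + d)))
    (hden : ∀ x, a ≤ x → x ≤ a + r → ∃ τ ∈ S, |τ - x| ≤ ε)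
    (h1 : ∀ τ ∈ S, ∀ i, |(v i).h (Φ τ) τ| ≤ η)
    (h2 : ∀ τ ∈ S, a - ε ≤ τ → τ ≤ a + r + ε → |e.h (Φ τ) τ| ≤ η) :
    ∀ τ ∈ S, |(posM v τ).det| * |e.h (Φ τ) τ| ≤
      ((Fintype.card ι : ℝ) + d + 2) * ((Fintype.card ι : ℝ) + 1) * detB (Fintype.card ι) d B *
        (4 * ((Fintype.card ι : ℝ) + d) / r) ^ (Fintype.card ι + d) * η := by
  set k : ℕ := Fintype.card ι with hk
  set A : ℝ := detB k d B with hA
  have hA0 : 0 ≤ A := detB_nonneg k d B hB
  set N : ℕ := k + d with hN
  have hN1 : 1 ≤ N := by omega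
  have hNr : (1 : ℝ) ≤ N := by exact_mod_cast hN1
  have hNc : ((k : ℝ) + d) = (N : ℝ) := by rw [hN]; push_cast; ring
  rw [hNc] at hε ⊢
  set P : ℝ[X] := (polM v e).det with hP
  have hsum : ∀ τ ∈ S, |∑ i, (bigM v e τ).adjugate (Sum.inr ()) (Sum.inl i) * (v i).h (Φ τ) τ| ≤
      (k : ℝ) * A * η := by
    intro τ hτ
    calc |∑ i, (bigM v e τ).adjugate (Sum.inr ()) (Sum.inl i) * (v i).h (Φ τ) τ|
        ≤ ∑ i, |(bigM v e τ).adjugate (Sum.inr ()) (Sum.inl i) * (v i).h (Φ τ) τ| :=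
          Finset.abs_sum_le_sum_abs _ _
      _ ≤ ∑ _i : ι, A * η := by
          refine Finset.sum_le_sum fun i _ => ?_
          rw [abs_mul]
          exact mul_le_mul (adj_le v e B τ hB hv he (hS τ hτ) _ _) (h1 τ hτ i) (abs_nonneg _) hA0
      _ = (k : ℝ) * A * η := by
          rw [Finset.sum_const, Finset.card_univ, nsmul_eq_mul, ← hk]
          ring
  have hPe : ∀ τ, P.eval τ = (posM v τ).det * e.h (Φ τ) τ +
      ∑ i, (bigM v e τ).adjugate (Sum.inr ()) (Sum.inl i) * (v i).h (Φ τ) τ := by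
    intro τ
    rw [hP, polM_det_eval, det_identity v e (Φ τ) τ]
  have hnear : ∀ τ ∈ S, a - ε ≤ τ → τ ≤ a + r + ε → |P.eval τ| ≤ ((k : ℝ) + 1) * A * η := by
    intro τ hτ ha hb
    rw [hPe τ]
    have h3 : |(posM v τ).det * e.h (Φ τ) τ| ≤ A * η := by
      rw [abs_mul]
      exact mul_le_mul (posM_det_le v e B τ hB hv he (hS τ hτ)) (h2 τ hτ ha hb) (abs_nonneg _) hA0
    calc _ ≤ |(posM v τ).det * e.h (Φ τ) τ| +
          |∑ i, (bigM v e τ).adjugate (Sum.inr ()) (Sum.inl i) * (v i).h (Φ τ) τ| :=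
          abs_add_le _ _
      _ ≤ A * η + (k : ℝ) * A * η := add_le_add h3 (hsum τ hτ)
      _ = _ := by ring
  -- the nodes
  have hex : ∀ l : ℕ, ∃ τ ∈ S, l ≤ N → |τ - (a + r * ((l : ℝ) / N))| ≤ ε := by
    intro l
    by_cases hl : l ≤ N
    · have h5 : (l : ℝ) / N ≤ 1 := by
        rw [div_le_one (by linarith)]
        exact_mod_cast hl
      have h6 : 0 ≤ (l : ℝ) / N := by positivity
      obtain ⟨τ, hτ, h7⟩ := hden (a + r * ((l : ℝ) / N)) (by nlinarith) (by nlinarith)
      exact ⟨τ, hτ, fun _ => h7⟩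
    · obtain ⟨τ, hτ, _⟩ := hden a le_rfl (by linarith)
      exact ⟨τ, hτ, fun h => absurd h hl⟩
  choose x hxS hxn using hex
  have hε2 : 2 * ε ≤ r / (2 * N) := by
    calc 2 * ε ≤ 2 * (r / (4 * N)) := by linarith
      _ = r / (2 * N) := by
          field_simp
          ring
  have hs : 0 < r / (2 * (N : ℝ)) := by positivity
  have hxs : ∀ i j, i < j → j ≤ N → r / (2 * (N : ℝ)) ≤ x j - x i := by
    intro i j hij hj
    have h8 := abs_le.1 (hxn i (by omega))
    have h9 := abs_le.1 (hxn j hj)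
    have h10 : (1 : ℝ) ≤ (j : ℝ) - i := by
      have : (i : ℝ) + 1 ≤ j := by exact_mod_cast hij
      linarith
    have h11 : r * ((j : ℝ) / N) - r * ((i : ℝ) / N) = r / N * ((j : ℝ) - i) := by
      field_simp
    have h12 : r / N ≤ r / N * ((j : ℝ) - i) := by
      have : 0 ≤ r / (N : ℝ) := by positivity
      nlinarith
    have h13 : r / (N : ℝ) = r / (2 * N) + r / (2 * N) := by
      field_simp
      ring
    linarith [h8.1, h8.2, h9.1, h9.2]
  intro τ hτ
  have hB2 : ∀ i, i ≤ N → |τ - x i| ≤ 2 := by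
    intro i _
    have h14 := abs_le.1 (hS τ hτ)
    have h15 := abs_le.1 (hS (x i) (hxS i))
    rw [abs_le]
    constructor <;> linarith [h14.1, h14.2, h15.1, h15.2]
  have hM : ∀ i, i ≤ N → |P.eval (x i)| ≤ ((k : ℝ) + 1) * A * η := by
    intro i hi
    have h8 := abs_le.1 (hxn i hi)
    have h5 : (i : ℝ) / N ≤ 1 := by
      rw [div_le_one (by linarith)]
      exact_mod_cast hi
    have h6 : 0 ≤ (i : ℝ) / N := by positivity
    refine hnear (x i) (hxS i) ?_ ?_
    · nlinarith [h8.1]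
    · nlinarith [h8.2]
  have hbd := Pool.KAL.RMM.lagrange_bound N P (polM_det_natDegree v e) x (r / (2 * N)) 2
    (((k : ℝ) + 1) * A * η) τ hs hxs hB2 hM
  have h16 : (2 : ℝ) / (r / (2 * N)) = 4 * N / r := by
    field_simp
    ring
  rw [h16] at hbd
  have h17 : (1 : ℝ) ≤ 4 * N / r := by
    rw [le_div_iff₀ hr]
    nlinarith
  have h18 : (1 : ℝ) ≤ (4 * N / r) ^ N := one_le_pow₀ h17
  have h19 : |(posM v τ).det| * |e.h (Φ τ) τ| ≤ |P.eval τ| + (k : ℝ) * A * η := by
    rw [← abs_mul]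
    have h20 : (posM v τ).det * e.h (Φ τ) τ = P.eval τ -
        ∑ i, (bigM v e τ).adjugate (Sum.inr ()) (Sum.inl i) * (v i).h (Φ τ) τ := by
      rw [hPe τ]
      ring
    rw [h20]
    exact (abs_sub _ _).trans (add_le_add le_rfl (hsum τ hτ))
  have h21 : (k : ℝ) * A * η ≤ ((k : ℝ) + 1) * A * η * (4 * N / r) ^ N := by
    have h22 : 0 ≤ A * η := by positivity
    have h23 : (0 : ℝ) ≤ k := by positivity
    nlinarith [mul_nonneg h23 h22, mul_le_mul_of_nonneg_left h18
      (show (0 : ℝ) ≤ ((k : ℝ) + 1) * A * η by positivity)]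
  calc _ ≤ |P.eval τ| + (k : ℝ) * A * η := h19
    _ ≤ ((N : ℝ) + 1) * ((4 * N / r) ^ N * (((k : ℝ) + 1) * A * η)) +
        ((k : ℝ) + 1) * A * η * (4 * N / r) ^ N := add_le_add hbd h21
    _ = _ := by ring

end Pool.LP
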