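import Pool.Agent.H29.LP.Assem

/-!
# Lemma P, final form
-/

set_option autoImplicit false

namespace Pool.LP

open Finset Real Polynomial

variable {ι : Type} [Fintype ι] [DecidableEq ι] {μ : Type} [Fintype μ] [DecidableEq μ] {d : ℕ}

/-- **No small invariance.** If all components of the difference of the displacements of two lines
are at most `κ`, then the components in the directions `T` are at most `η`. -/
def Star (W : Set (Ln ι μ d)) (T : Set μ) (Φ : ℝ → μ → ι → ℝ) (S : Set ℝ) (κ η : ℝ) : Prop :=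
  ∀ τ ∈ S, ∀ w ∈ W, ∀ w' ∈ W, (∀ m, |(w.sub w').h m (Φ τ) τ| ≤ κ) →
    ∀ m ∈ T, |(w.sub w').h m (Φ τ) τ| ≤ η

omit [Fintype ι] [DecidableEq ι] [Fintype μ] [DecidableEq μ] in
/-- Bounds for the polynomial data. -/
theorem Ln.pv_bdd (w : Ln ι μ d) (B : ℝ) (hB : 0 ≤ B) (hw : w.bdd B B B) (m : μ) :
    (w.pv m).bdd (((d : ℝ) + 2) * B) := by
  intro τ hτ
  constructor
  · rw [Ln.pv_C_eval]
    calc |∑ j : Fin d, w.c m j * τ ^ ((j : ℕ) + 1)|
        ≤ ∑ j : Fin d, |w.c m j * τ ^ ((j : ℕ) + 1)| := Finset.abs_sum_le_sum_abs _ _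
      _ ≤ ∑ _j : Fin d, B := by
          refine Finset.sum_le_sum fun j _ => ?_
          rw [abs_mul, abs_pow]
          calc |w.c m j| * |τ| ^ ((j : ℕ) + 1) ≤ B * 1 :=
                mul_le_mul (hw.2.2 m j) (pow_le_one₀ (abs_nonneg _) hτ) (by positivity) hB
            _ = B := mul_one B
      _ = (d : ℝ) * B := by rw [Finset.sum_const, Finset.card_univ, Fintype.card_fin, nsmul_eq_mul]
      _ ≤ _ := by nlinarith
  · intro i
    rw [Ln.pv_p_eval]
    have h1 : |τ * w.om i| ≤ B := by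
      rw [abs_mul]
      calc |τ| * |w.om i| ≤ 1 * B := mul_le_mul hτ (hw.2.1 i) (abs_nonneg _) zero_le_one
        _ = B := one_mul B
    have h2 : (0 : ℝ) ≤ d * B := by positivity
    calc |w.y i + τ * w.om i| ≤ |w.y i| + |τ * w.om i| := abs_add_le _ _
      _ ≤ B + B := add_le_add (hw.1 i) h1
      _ ≤ _ := by nlinarith

/-- The determinant of the positions of the lines `v i`, as a polynomial in the time. -/
noncomputable def posQ (v : ι → Ln ι μ d) : ℝ[X] :=
  Matrix.det (Matrix.of fun i j => Polynomial.C ((v i).y j) + X * Polynomial.C ((v i).om j))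

omit [Fintype μ] [DecidableEq μ] in
theorem posQ_eq (v : ι → Ln ι μ d) (m : μ) : posQ v = (posP fun i => (v i).pv m).det := rfl

omit [Fintype μ] [DecidableEq μ] in
theorem posQ_eval (v : ι → Ln ι μ d) (τ : ℝ) :
    (posQ v).eval τ = (Matrix.of fun i j => (v i).y j + τ * (v i).om j).det := by
  refine det_eval _ _ _ fun i j => ?_
  rw [Matrix.of_apply, Matrix.of_apply, eval_add, eval_mul, eval_C, eval_C, eval_X]

/-- **Lemma P.** The constants `N`, `r` and `K` depend on the dimensions, on `B` and on `κ` only.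
`W` is the set of the typical data of the lines of one value of the context at the base time, `S`
the set of the typical times, `Φ` the frame, `A` a set of cells of positions which occur in `W`,
at least one half of all cells. -/
theorem lemma_P (ι μ : Type) [Fintype ι] [DecidableEq ι] [Fintype μ] [DecidableEq μ] (d : ℕ)
    (hd : 1 ≤ d) (B κ : ℝ) (hB : 1 ≤ B) (hκ : 0 < κ) :
    ∃ (N : ℕ) (r K : ℝ), 0 < N ∧ 0 < r ∧ r ≤ 1 ∧ 1 ≤ K ∧
      ∀ (W : Set (Ln ι μ d)) (T : Set μ) (Φ : ℝ → μ → ι → ℝ)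
      (S : Set ℝ) (η a : ℝ) (A : Finset (ι → ℕ)), 0 ≤ η →
      (∀ w ∈ W, (∀ j, 0 ≤ w.y j ∧ w.y j < 1) ∧ (∀ j, |w.om j| ≤ B) ∧ ∀ m j, |w.c m j| ≤ B) →
      (∀ τ ∈ S, |τ| ≤ 1 ∧ ∀ m i, |Φ τ m i| ≤ B) → Star W T Φ S κ η →
      (∀ b ∈ A, ∃ w ∈ W, ∀ j, ⌊(N : ℝ) * w.y j⌋₊ = b j) →
      N ^ Fintype.card ι ≤ 2 * A.card →
      -r ≤ a → a ≤ 0 → (∀ x, a ≤ x → x ≤ a + r → ∃ τ ∈ S, |τ - x| ≤ r ^ 2) →
      ∃ (q : ℝ[X]) (P : μ → ι → ℝ[X]), q.natDegree ≤ Fintype.card ι ∧ 1 / K ≤ |q.eval 0| ∧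
        (∀ τ : ℝ, |τ| ≤ 1 → |q.eval τ| ≤ K) ∧
        (∀ m, ∀ i, (P m i).natDegree ≤ Fintype.card ι - 1 + d ∧ (P m i).eval 0 = 0 ∧
          (∀ τ : ℝ, |τ| ≤ 1 → |(P m i).eval τ| ≤ K)) ∧
        (∀ m ∈ T, ∀ i, ∀ τ ∈ S, |q.eval τ * Φ τ m i - (P m i).eval τ| ≤ K * η) ∧
        ∀ w ∈ W, ∀ w' ∈ W, (∀ i, |w.y i - w'.y i| ≤ r) → ∀ m ∈ T, ∀ τ ∈ S,
          |q.eval τ| * |(w.sub w').h m (Φ τ) τ| ≤ K * η := by
  classical
  set k : ℕ := Fintype.card ι with hk
  -- the parameters
  set s : ℝ := κ / ((d : ℝ) + 2 * k * B + 1) with hs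
  have hden : (0 : ℝ) < (d : ℝ) + 2 * k * B + 1 := by positivity
  have hs0 : 0 < s := div_pos hκ hden
  have hsκ : s * ((d : ℝ) + 2 * k * B + 1) = κ := by
    rw [hs]
    field_simp
  obtain ⟨M, hM⟩ : ∃ M : ℕ, 1 / s + 1 < M := exists_nat_gt _
  have hs1 : 0 < 1 / s := by positivity
  have hMpos : (0 : ℝ) < M := by linarith
  have hMge : (1 : ℝ) ≤ M := by linarith
  have hM0 : 0 < M := by exact_mod_cast hMpos
  have hM1 : 1 / (M : ℝ) ≤ s := by
    rw [div_le_iff₀ hMpos]
    have : 1 / s < M := by linarith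
    rw [div_lt_iff₀ hs0] at this
    nlinarith
  obtain ⟨R, hR⟩ : ∃ R : ℕ, 2 * B / s < R := exists_nat_gt _
  have hRp : 0 < R := by
    have h1 : (0 : ℝ) ≤ 2 * B / s := by positivity
    have h2 : (0 : ℝ) < R := h1.trans_lt hR
    exact_mod_cast h2
  set G : ℕ := 2 * k.factorial + 1 with hG
  set L : ℕ := 2 * G * R ^ (k + Fintype.card μ * d) + 1 with hL
  have hL0 : 0 < L := by omega
  have hG0 : 0 < G := by omega
  have hLr : (0 : ℝ) < L := by exact_mod_cast hL0
  set N : ℕ := L * M with hN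
  have hN0 : 0 < N := Nat.mul_pos hL0 hM0
  have hNr : (0 : ℝ) < N := by exact_mod_cast hN0
  have hNc : (N : ℝ) = (L : ℝ) * M := by rw [hN]; push_cast; ring
  set q0 : ℝ := (((G : ℝ) - 1) / (L * M)) ^ k / 2 with hq0
  have hG1 : (0 : ℝ) < (G : ℝ) - 1 := by
    rw [hG]
    push_cast
    have : (0 : ℝ) < (k.factorial : ℝ) := by exact_mod_cast Nat.factorial_pos k
    linarith
  have hq0p : 0 < q0 := by positivity
  set B' : ℝ := ((d : ℝ) + 2) * (2 * B) with hB'
  have hd0 : (0 : ℝ) ≤ d := by positivity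
  have hk0 : (0 : ℝ) ≤ k := by positivity
  have hB'1 : 1 ≤ B' := by rw [hB']; nlinarith
  set r1 : ℝ := (2 * d * (2 * B) + k * (B * (1 + 2 * (2 * B)))) / κ with hr1
  have hr10 : 0 ≤ r1 := by positivity
  have hD0 : 0 ≤ dB k B' := dB_nonneg k B' (by linarith)
  -- `K1` is used for the intervals of times
  set K1 : ℝ := 4 * ((k : ℝ) * (1 : ℕ) + d) + 2 + r1 with hK1
  have h4n : (0 : ℝ) ≤ 4 * ((k : ℝ) * (1 : ℕ) + d) := by positivity
  have hK11 : 1 ≤ K1 := by
    rw [hK1]
    linarith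
  have hK1p : 0 < K1 := by linarith
  set r : ℝ := 1 / K1 with hr
  have hr0 : 0 < r := by positivity
  have hrle : r ≤ 1 / 2 := by
    rw [hr]
    refine one_div_le_one_div_of_le (by norm_num) ?_
    rw [hK1]
    linarith
  have hrK : r * K1 = 1 := by
    rw [hr]
    field_simp
  set Kg : ℝ := ((k : ℝ) * (1 : ℕ) + d + 2) * ((k : ℝ) + 1) * dB k B' *
        (4 * ((k : ℝ) * (1 : ℕ) + d) / r) ^ (k * 1 + d) with hKg'
  have hKg0 : 0 ≤ Kg := by positivity
  -- the constant of the theorem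
  obtain ⟨K, hKq, hKd, hKn, hKf, hKg, hKone⟩ : ∃ K : ℝ, 1 / K ≤ q0 ∧ dB k B' ≤ K ∧
      (k : ℝ) * (dB k B' * B') ≤ K ∧ (k : ℝ) * dB k B' ≤ K ∧ Kg ≤ K ∧ 1 ≤ K := by
    refine ⟨1 + 1 / q0 + dB k B' + (k : ℝ) * (dB k B' * B') + (k : ℝ) * dB k B' + Kg, ?_, ?_, ?_,
      ?_, ?_, ?_⟩
    all_goals
      have e1 : 0 < 1 / q0 := by positivity
      have e2 : 0 ≤ (k : ℝ) * (dB k B' * B') := by positivity
      have e3 : 0 ≤ (k : ℝ) * dB k B' := by positivity
    · rw [div_le_iff₀ (by linarith)]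
      have e4 : q0 * (1 / q0) = 1 := by field_simp
      nlinarith
    · linarith
    · linarith
    · linarith
    · linarith
    · linarith
  have hKpos : 0 < K := by linarith
  refine ⟨N, r, K, hN0, hr0, by linarith, hKone, ?_⟩
  intro W T Φ S η a A hη hW hS hstar hA hAc ha1 ha2 hmesh
  -- the lines
  have hcard : ∀ _i : ι, G * M * (L * M) ^ (Fintype.card ι - 1) *
      R ^ (Fintype.card ι + Fintype.card μ * d) < A.card := by
    intro i
    have hk1 : 1 ≤ k := Fintype.card_pos_iff.2 ⟨i⟩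
    have e1 : N ^ k = (L * M) ^ (k - 1) * (L * M) := by
      rw [← pow_succ, Nat.sub_add_cancel hk1]
    have e2 : 2 * (G * M * (L * M) ^ (k - 1) * R ^ (k + Fintype.card μ * d)) <
        (L * M) ^ (k - 1) * (L * M) := by
      have e3 : 2 * (G * M * (L * M) ^ (k - 1) * R ^ (k + Fintype.card μ * d)) =
          (L * M) ^ (k - 1) * ((2 * G * R ^ (k + Fintype.card μ * d)) * M) := by ring
      rw [e3]
      refine Nat.mul_lt_mul_of_pos_left ?_ (by positivity)
      refine Nat.mul_lt_mul_of_pos_right ?_ hM0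
      omega
    rw [← e1] at e2
    show G * M * (L * M) ^ (k - 1) * R ^ (k + Fintype.card μ * d) < A.card
    omega
  have hex : ∀ i : ι, ∃ w ∈ W, ∃ w' ∈ W, (∀ j, j ≠ i → |(w.sub w').y j| ≤ 1 / ((L : ℝ) * M)) ∧
      ((G : ℝ) - 1) / (L * M) ≤ (w.sub w').y i ∧ (w.sub w').y i ≤ 1 / M ∧
      (∀ j, |(w.sub w').om j| ≤ s) ∧ ∀ m j, |(w.sub w').c m j| ≤ s := by
    intro i
    refine pairs i L M G R hL0 hM0 hG0 B s (by linarith) hs0 hR W hW A ?_ (hcard i)
    rw [← hNc]
    exact hA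
  choose w hw w' hw' hv1 hv2 hv3 hv4 hv5 using hex
  set v : ι → Ln ι μ d := fun i => (w i).sub (w' i) with hv
  have hvb : ∀ i, (v i).bdd (1 / M) s s := by
    intro i
    refine ⟨fun j => ?_, hv4 i, hv5 i⟩
    by_cases hj : j = i
    · subst hj
      rw [abs_le]
      have e1 : (0 : ℝ) ≤ 1 / M := by positivity
      have e2 : (0 : ℝ) ≤ ((G : ℝ) - 1) / (L * M) := by positivity
      exact ⟨by have := hv2 j; linarith, hv3 j⟩
    · refine (hv1 i j hj).trans ?_
      refine one_div_le_one_div_of_le hMpos ?_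
      have : (1 : ℝ) ≤ L := by exact_mod_cast hL0
      nlinarith
  -- the displacements of the lines `v i`
  have hsmall : ∀ τ ∈ S, ∀ i, ∀ m, |(v i).h m (Φ τ) τ| ≤ κ := by
    intro τ hτ i m
    refine ((v i).h_le (1 / M) s s B 1 τ (hvb i) m (Φ τ) ((hS τ hτ).2 m) (hS τ hτ).1 le_rfl
      hs0.le (by linarith)).trans ?_
    rw [← hk]
    have e1 : (k : ℝ) * (B * (1 / M + 1 * s)) ≤ k * (B * (s + 1 * s)) := by
      refine mul_le_mul_of_nonneg_left ?_ hk0
      exact mul_le_mul_of_nonneg_left (by linarith) (by linarith)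
    nlinarith
  have hη1 : ∀ m ∈ T, ∀ τ ∈ S, ∀ i, |(v i).h m (Φ τ) τ| ≤ η := by
    intro m hm τ hτ i
    exact hstar τ hτ (w i) (hw i) (w' i) (hw' i) (hsmall τ hτ i) m hm
  have hpb : ∀ m i, ((v i).pv m).bdd B' := by
    intro m i
    refine (v i).pv_bdd (2 * B) (by linarith) ⟨fun j => ?_, fun j => ?_, fun m' j => ?_⟩ m
    · refine ((hvb i).1 j).trans ?_
      refine (div_le_one hMpos).2 hMge |>.trans ?_
      linarith
    · have e1 := (hW _ (hw i)).2.1 j
      have e2 := (hW _ (hw' i)).2.1 j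
      exact (abs_sub _ _).trans (by linarith)
    · have e1 := (hW _ (hw i)).2.2 m' j
      have e2 := (hW _ (hw' i)).2.2 m' j
      exact (abs_sub _ _).trans (by linarith)
  have hentry : ∀ (τ : ℝ), |τ| ≤ 1 → ∀ i j, |(v i).y j + τ * (v i).om j| ≤ B' := by
    intro τ hτ i j
    have e1 : |(v i).y j| ≤ 1 := by
      refine ((hvb i).1 j).trans ?_
      exact (div_le_one hMpos).2 hMge
    have e2 : |(v i).om j| ≤ 2 * B := by
      have e1 := (hW _ (hw i)).2.1 j
      have e2 := (hW _ (hw' i)).2.1 j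
      exact (abs_sub _ _).trans (by linarith)
    have e3 : |τ * (v i).om j| ≤ 1 * (2 * B) := by
      rw [abs_mul]
      exact mul_le_mul hτ e2 (abs_nonneg _) zero_le_one
    calc |(v i).y j + τ * (v i).om j| ≤ |(v i).y j| + |τ * (v i).om j| := abs_add_le _ _
      _ ≤ 1 + 1 * (2 * B) := add_le_add e1 e3
      _ ≤ B' := by rw [hB']; nlinarith
  refine ⟨posQ v, fun m i => numP (fun i => (v i).pv m) i, ?_, ?_, ?_, ?_, ?_, ?_⟩
  · -- degree
    have h := det_natDegree (Matrix.of fun i j => Polynomial.C ((v i).y j) +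
      X * Polynomial.C ((v i).om j)) (fun _ => 1) ?_
    · rw [Finset.sum_const, Finset.card_univ, smul_eq_mul, mul_one] at h
      exact h
    · intro i j
      rw [Matrix.of_apply]
      refine (Polynomial.natDegree_add_le _ _).trans (max_le ?_ ?_)
      · rw [Polynomial.natDegree_C]
        omega
      · refine (Polynomial.natDegree_mul_le).trans ?_
        rw [Polynomial.natDegree_C]
        have := Polynomial.natDegree_X_le (R := ℝ)
        omega
  · -- the value at zero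
    refine hKq.trans ?_
    have e1 : (posQ v).eval 0 = (Matrix.of fun i j => (v i).y j).det := by
      refine det_eval _ _ _ fun i j => ?_
      rw [Matrix.of_apply, Matrix.of_apply]
      simp
    rw [e1]
    refine det_lower _ (1 / ((L : ℝ) * M)) (((G : ℝ) - 1) / (L * M)) (by positivity)
      (by positivity) ?_ ?_ ?_
    · intro i
      rw [Matrix.of_apply]
      exact (hv2 i).trans (le_abs_self _)
    · intro i j hij
      rw [Matrix.of_apply]
      exact hv1 i j (Ne.symm hij)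
    · rw [mul_one_div]
      refine div_le_div_of_nonneg_right ?_ (by positivity)
      rw [hG]
      push_cast
      linarith
  · -- the bound for `q`
    intro τ hτ
    rw [posQ_eval]
    refine (abs_det_le _ B' fun i j => ?_).trans ?_
    · rw [Matrix.of_apply]
      exact hentry τ hτ i j
    · refine le_trans ?_ hKd
      unfold dB
      have h2 : ((k.factorial : ℕ) : ℝ) ≤ (((k + 1).factorial : ℕ) : ℝ) := by
        exact_mod_cast Nat.factorial_le (Nat.le_succ k)
      have h3 : B' ^ k ≤ B' ^ (k + 1) := pow_le_pow_right₀ hB'1 (Nat.le_succ k)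
      exact mul_le_mul h2 h3 (by positivity) (by positivity)
  · -- numerators
    intro m i
    refine ⟨?_, ?_, ?_⟩
    · have h := numP_natDegree (fun i => (v i).pv m) d 1 (fun i => (v i).pv_deg m) i
      rw [mul_one] at h
      exact h
    · exact numP_zero (fun i => (v i).pv m) i fun j => (v j).pv_C_zero m
    · intro τ hτ
      exact (numP_le (fun i => (v i).pv m) B' hB'1 (hpb m) τ hτ i).trans hKn
  · -- frames
    intro m hm i τ hτ
    have h := frame_rational (fun i => (v i).pv m) B' η hB'1 (hpb m) (Φ τ m) τ (hS τ hτ).1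
      (fun i => by rw [← Ln.h_eq]; exact hη1 m hm τ hτ i) i
    rw [← posQ_eq] at h
    refine h.trans ?_
    exact mul_le_mul_of_nonneg_right hKf hη
  · -- conservation
    intro w1 hw1 w2 hw2 hy m hm τ hτ
    have heb : (w1.sub w2).bdd r (2 * B) (2 * B) := by
      refine ⟨hy, fun j => ?_, fun m' j => ?_⟩
      · have e1 := (hW _ hw1).2.1 j
        have e2 := (hW _ hw2).2.1 j
        exact (abs_sub _ _).trans (by linarith)
      · have e1 := (hW _ hw1).2.2 m' j
        have e2 := (hW _ hw2).2.2 m' j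
        exact (abs_sub _ _).trans (by linarith)
    have hepb : ((w1.sub w2).pv m).bdd B' := by
      refine (w1.sub w2).pv_bdd (2 * B) (by linarith) ⟨fun j => ?_, heb.2.1, heb.2.2⟩ m
      exact (heb.1 j).trans (by linarith)
    have h := globalP (fun i => (v i).pv m) ((w1.sub w2).pv m) d 1 hd (fun τ => Φ τ m) S B' η r a
      (r ^ 2) hB'1 (fun i => (v i).pv_deg m) ((w1.sub w2).pv_deg m) (hpb m) hepb hη
      (fun τ hτ => (hS τ hτ).1) hr0 (by linarith) ?_ hmesh ?_ ?_ τ hτ
    · rw [← Ln.h_eq, ← posP_eval, ← posQ_eq] at h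
      refine h.trans ?_
      rw [← hk]
      exact mul_le_mul_of_nonneg_right hKg hη
    · rw [← hk, le_div_iff₀ (by
        have : (1 : ℝ) ≤ d := by exact_mod_cast hd
        have e1 : (0 : ℝ) ≤ (k : ℝ) * (1 : ℕ) := by positivity
        linarith)]
      have e1 : r * (4 * ((k : ℝ) * (1 : ℕ) + d)) ≤ r * K1 := by
        refine mul_le_mul_of_nonneg_left ?_ hr0.le
        rw [hK1]
        linarith
      rw [hrK] at e1
      nlinarith
    · intro τ hτ i
      rw [← Ln.h_eq]
      exact hη1 m hm τ hτ i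
    · intro τ hτ hτ1 hτ2
      rw [← Ln.h_eq]
      refine hstar τ hτ w1 hw1 w2 hw2 ?_ m hm
      intro m'
      have hr2 : r ^ 2 ≤ r := by nlinarith
      have hτr : |τ| ≤ 2 * r := by
        rw [abs_le]
        constructor <;> linarith
      refine ((w1.sub w2).h_le r (2 * B) (2 * B) B (2 * r) τ heb m' (Φ τ) ((hS τ hτ).2 m') hτr
        (by linarith) (by linarith) (by linarith)).trans ?_
      rw [← hk]
      have e1 : (d : ℝ) * (2 * B * (2 * r)) + (k : ℝ) * (B * (r + 2 * r * (2 * B))) =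
          r * (2 * d * (2 * B) + k * (B * (1 + 2 * (2 * B)))) := by ring
      rw [e1]
      have e2 : r * (2 * d * (2 * B) + k * (B * (1 + 2 * (2 * B)))) = r * r1 * κ := by
        rw [hr1]
        field_simp
      rw [e2]
      have e3 : r * r1 ≤ 1 := by
        rw [← hrK]
        refine mul_le_mul_of_nonneg_left ?_ hr0.le
        rw [hK1]
        linarith
      nlinarith

end Pool.LP
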