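import Pool.Agent.H29.LP.Lemp

/-!
# Lemma P: the pigeonhole step

If the positions of the lines of a context are dense, there are, for every coordinate direction,
two lines whose positions differ essentially in this direction only, while their velocities and
the coefficients of their normal motions are close.
-/

set_option autoImplicit false

namespace Pool.LP

open Finset Real

variable {ι : Type} [Fintype ι] [DecidableEq ι] {d : ℕ}

/-- **Pigeonhole on a grid.** A subset `A` of the grid `{0, .., L M - 1} ^ ι` with more than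
`G M (L M) ^ (k - 1) |F|` points contains two points which differ in the coordinate `i` only, by a
nonzero multiple of `G` which is less than `L`, and have the same colour in `F`. -/
theorem pigp {F : Type} [Fintype F] [DecidableEq F] (i : ι) (L M G : ℕ) (hL : 0 < L)
    (hG : 0 < G) (A : Finset (ι → ℕ)) (f : (ι → ℕ) → F) (hA : ∀ a ∈ A, ∀ j, a j < L * M)
    (hcard : G * M * (L * M) ^ (Fintype.card ι - 1) * Fintype.card F < A.card) :
    ∃ a ∈ A, ∃ a' ∈ A, (∀ j, j ≠ i → a j = a' j) ∧ a' i < a i ∧ a' i + G ≤ a i ∧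
      a i < a' i + L ∧ f a = f a' := by
  -- the colour of a point: its coordinates except `i`, the quotient and the residue, and `f`
  set g : (ι → ℕ) → ((ι → ℕ) × ℕ) × F := fun a =>
    ((fun j => if j = i then a i / L else a j, a i % G), f a) with hg
  set T : Finset (((ι → ℕ) × ℕ) × F) :=
    ((Fintype.piFinset fun j => if j = i then range M else range (L * M)) ×ˢ range G) ×ˢ
      (univ : Finset F) with hT
  have hmap : ∀ a ∈ A, g a ∈ T := by
    intro a ha
    rw [hT, mem_product, mem_product, Fintype.mem_piFinset]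
    refine ⟨⟨fun j => ?_, mem_range.2 (Nat.mod_lt _ hG)⟩, mem_univ _⟩
    by_cases hj : j = i
    · subst hj
      simp only [hg, if_true]
      rw [mem_range, Nat.div_lt_iff_lt_mul hL, mul_comm]
      exact hA a ha j
    · simp only [hg, if_neg hj]
      exact mem_range.2 (hA a ha j)
  have hTc : T.card = G * M * (L * M) ^ (Fintype.card ι - 1) * Fintype.card F := by
    rw [hT, card_product, card_product, Fintype.card_piFinset, card_range, card_univ]
    have h1 : ∏ j, (if j = i then range M else range (L * M)).card =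
        M * (L * M) ^ (Fintype.card ι - 1) := by
      rw [← mul_prod_erase univ _ (mem_univ i)]
      congr 1
      · simp
      · rw [prod_congr rfl (g := fun _ => L * M)]
        · rw [prod_const, card_erase_of_mem (mem_univ i), card_univ]
        · intro j hj
          rw [if_neg (ne_of_mem_erase hj), card_range]
    rw [h1]
    ring
  obtain ⟨a, ha, a', ha', hne, hgg⟩ := exists_ne_map_eq_of_card_lt_of_maps_to
    (by rw [hTc]; exact hcard) hmap
  have h1 : ∀ j, j ≠ i → a j = a' j := by
    intro j hj
    have := congrFun (congrArg (fun x => x.1.1) hgg) j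
    simpa only [hg, if_neg hj] using this
  have h2 : a i / L = a' i / L := by
    have := congrFun (congrArg (fun x => x.1.1) hgg) i
    simpa only [hg, if_true] using this
  have h3 : a i % G = a' i % G := congrArg (fun x => x.1.2) hgg
  have h4 : f a = f a' := congrArg (fun x => x.2) hgg
  have h5 : a i ≠ a' i := by
    intro h
    apply hne
    funext j
    by_cases hj : j = i
    · rw [hj, h]
    · exact h1 j hj
  have key : ∀ x y : ℕ, x / L = y / L → x % G = y % G → y < x → y + G ≤ x ∧ x < y + L := by
    intro x y hq hm hlt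
    constructor
    · have h6 : G ∣ x - y := (Nat.modEq_iff_dvd' hlt.le).1 hm.symm
      have h7 := Nat.le_of_dvd (by omega) h6
      omega
    · have h8 := Nat.div_add_mod x L
      have h9 := Nat.div_add_mod y L
      have h10 := Nat.mod_lt x hL
      rw [hq] at h8
      omega
  rcases lt_or_gt_of_ne h5 with h | h
  · obtain ⟨h6, h7⟩ := key (a' i) (a i) h2.symm h3.symm h
    exact ⟨a', ha', a, ha, fun j hj => (h1 j hj).symm, h, h6, h7, h4.symm⟩
  · obtain ⟨h6, h7⟩ := key (a i) (a' i) h2 h3 h
    exact ⟨a, ha, a', ha', h1, h, h6, h7, h4⟩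

/-- A matrix with unit diagonal and small entries off the diagonal has determinant near one. -/
theorem det_near_one (A : Matrix ι ι ℝ) (δ : ℝ) (hδ0 : 0 ≤ δ) (hδ1 : δ ≤ 1)
    (h1 : ∀ i, A i i = 1) (h2 : ∀ i j, i ≠ j → |A i j| ≤ δ) :
    |A.det - 1| ≤ ((Fintype.card ι).factorial : ℝ) * δ := by
  have hle : ∀ i j, |A i j| ≤ 1 := by
    intro i j
    by_cases h : i = j
    · rw [h, h1, abs_one]
    · exact (h2 i j h).trans hδ1
  rw [Matrix.det_apply, ← add_sum_erase univ _ (mem_univ (1 : Equiv.Perm ι))]
  have e1 : (Equiv.Perm.sign (1 : Equiv.Perm ι) : ℤˣ) • ∏ i, A ((1 : Equiv.Perm ι) i) i = 1 := by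
    rw [Equiv.Perm.sign_one, one_smul]
    exact prod_eq_one fun i _ => by rw [Equiv.Perm.one_apply, h1]
  rw [e1, add_sub_cancel_left]
  calc _ ≤ ∑ σ ∈ univ.erase (1 : Equiv.Perm ι),
        |(Equiv.Perm.sign σ : ℤˣ) • ∏ i, A (σ i) i| := abs_sum_le_sum_abs _ _
    _ ≤ ∑ _σ ∈ univ.erase (1 : Equiv.Perm ι), δ := by
        refine sum_le_sum fun σ hσ => ?_
        have hσ1 : σ ≠ 1 := ne_of_mem_erase hσ
        obtain ⟨i, hi⟩ : ∃ i, σ i ≠ i := by
          by_contra hcon
          push Not at hcon
          exact hσ1 (Equiv.ext hcon)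
        have e2 : |(Equiv.Perm.sign σ : ℤˣ) • ∏ i, A (σ i) i| = |∏ i, A (σ i) i| := by
          rcases Int.units_eq_one_or (Equiv.Perm.sign σ) with h | h
          · rw [h, one_smul]
          · rw [h, Units.neg_smul, one_smul, abs_neg]
        rw [e2, abs_prod, ← mul_prod_erase univ _ (mem_univ i)]
        calc |A (σ i) i| * ∏ j ∈ univ.erase i, |A (σ j) j| ≤ δ * 1 := by
              refine mul_le_mul (h2 _ _ hi) ?_ (prod_nonneg fun j _ => abs_nonneg _) hδ0
              exact prod_le_one (fun j _ => abs_nonneg _) fun j _ => hle _ _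
          _ = δ := mul_one δ
    _ = ((univ.erase (1 : Equiv.Perm ι)).card : ℝ) * δ := by
        rw [sum_const, nsmul_eq_mul]
    _ ≤ _ := by
        refine mul_le_mul_of_nonneg_right ?_ hδ0
        rw [card_erase_of_mem (mem_univ _), card_univ, Fintype.card_perm]
        exact_mod_cast Nat.sub_le _ _

/-- Lower bound for the determinant of a matrix with dominant diagonal. -/
theorem det_lower (A : Matrix ι ι ℝ) (s h : ℝ) (hs : 0 ≤ s) (hh : 0 < h)
    (h1 : ∀ i, h ≤ |A i i|) (h2 : ∀ i j, i ≠ j → |A i j| ≤ s)
    (h3 : 2 * ((Fintype.card ι).factorial : ℝ) * s ≤ h) :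
    h ^ Fintype.card ι / 2 ≤ |A.det| := by
  have hne : ∀ i, A i i ≠ 0 := fun i hi => by
    have := h1 i
    rw [hi, abs_zero] at this
    linarith
  set Bm : Matrix ι ι ℝ := Matrix.of fun i j => A i j / A i i with hBm
  have e1 : A.det = (∏ i, A i i) * Bm.det := by
    have h4 := Matrix.det_mul_column (fun i => A i i) Bm
    rw [← h4]
    congr 1
    ext i j
    rw [Matrix.of_apply, hBm, Matrix.of_apply, mul_div_cancel₀ _ (hne i)]
  have hfac : (1 : ℝ) ≤ ((Fintype.card ι).factorial : ℝ) := by
    exact_mod_cast Nat.one_le_iff_ne_zero.2 (Nat.factorial_ne_zero _)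
  have h5 : |Bm.det - 1| ≤ ((Fintype.card ι).factorial : ℝ) * (s / h) := by
    refine det_near_one Bm (s / h) (by positivity) ?_ ?_ ?_
    · rw [div_le_one hh]
      nlinarith
    · intro i
      rw [hBm, Matrix.of_apply, div_self (hne i)]
    · intro i j hij
      rw [hBm, Matrix.of_apply, abs_div]
      exact div_le_div₀ hs (h2 i j hij) hh (h1 i)
  have h6 : ((Fintype.card ι).factorial : ℝ) * (s / h) ≤ 1 / 2 := by
    rw [← mul_div_assoc, div_le_div_iff₀ hh (by norm_num)]
    linarith
  have h7 : 1 / 2 ≤ |Bm.det| := by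
    have h8 := abs_le.1 (h5.trans h6)
    rw [le_abs]
    left
    linarith [h8.1]
  rw [e1, abs_mul, abs_prod]
  have h9 : h ^ Fintype.card ι ≤ ∏ i, |A i i| := by
    rw [← card_univ, ← prod_const]
    exact prod_le_prod (fun _ _ => hh.le) fun i _ => h1 i
  have h10 : 0 < h ^ Fintype.card ι := by positivity
  nlinarith [mul_le_mul h9 h7 (by norm_num) (h10.le.trans h9)]

end Pool.LP
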