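import Pool.Agent.H29.LP.Main
import Pool.Agent.H87.KX.UTL

/-!
# The hypothesis `Star` of Lemma P

One value of the context. The normal coordinate at the base time is nearly independent of the data
`w` of the line, and so is the normal coordinate at the time `τ`. If the rows of the block of the
normal coordinate at the base time are not full, then `Star` holds.
-/

set_option autoImplicit false

namespace Pool.LP

open Finset Real
open Pool.Agent.H49.Ent Pool.Agent.H32.Dense Pool.STK Pool.KVA Pool.KX Pool.KAL Pool.KAF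

variable {ι : Type} [Fintype ι] {d : ℕ}

/-- `Star` from the invariance under all the differences of the displacements. -/
theorem star_of_tiv {Ω U : Type} [Fintype Ω] {p : Ω → ℝ} (hp : IsLaw p) (X : Ω → ℤ) (V : Ω → U)
    (κ L β : ℕ) (e : ℝ) (hκ : κ ≤ L) (he : 0 ≤ e) (he2 : 9 * 4 ^ (L - β) * e ≤ 1)
    (hent : CH p (fun ω => X ω / ((2 ^ κ : ℕ) : ℤ)) (fun ω => (X ω / ((2 ^ L : ℕ) : ℤ), V ω)) <
      ((L : ℝ) - κ) * Real.log 2 - 5)
    (W : Set (Ln ι Unit d)) (Φ : ℝ → Unit → ι → ℝ) (S : Set ℝ) (g : ℝ → Ln ι Unit d → ℤ)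
    (hg : ∀ τ ∈ S, ∀ w ∈ W, |(g τ w : ℝ) - 2 ^ L * w.h () (Φ τ) τ| ≤ 1)
    (hinv : ∀ τ ∈ S, ∀ w ∈ W, ∀ w' ∈ W, TIV p X V (g τ w - g τ w') e) :
    Star W Set.univ Φ S ((2 ^ κ - 2) / 2 ^ L) ((2 ^ β + 2) / 2 ^ L) := by
  intro τ hτ w hw w' hw' hsm m _
  obtain rfl : m = () := rfl
  have hL : (0 : ℝ) < 2 ^ L := by positivity
  have h1 := hsm ()
  rw [Ln.h_sub] at h1 ⊢
  set x : ℤ := g τ w - g τ w' with hx
  have e1 := hg τ hτ w hw
  have e2 := hg τ hτ w' hw'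
  have hxh : |(x : ℝ) - 2 ^ L * (w.h () (Φ τ) τ - w'.h () (Φ τ) τ)| ≤ 2 := by
    have e3 : (x : ℝ) - 2 ^ L * (w.h () (Φ τ) τ - w'.h () (Φ τ) τ) =
        ((g τ w : ℝ) - 2 ^ L * w.h () (Φ τ) τ) - ((g τ w' : ℝ) - 2 ^ L * w'.h () (Φ τ) τ) := by
      rw [hx]
      push_cast
      ring
    rw [e3]
    exact (abs_sub _ _).trans (by linarith)
  set D : ℝ := w.h () (Φ τ) τ - w'.h () (Φ τ) τ with hD
  have habs : |2 ^ L * D| = 2 ^ L * |D| := by rw [abs_mul, abs_of_pos hL]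
  rw [le_div_iff₀ hL] at h1
  have h2 : |(x : ℝ)| ≤ 2 ^ κ := by
    have h3 := abs_sub_abs_le_abs_sub (x : ℝ) (2 ^ L * D)
    rw [habs] at h3
    linarith
  have h3 : |x| ≤ (2 : ℤ) ^ κ := by
    have h4 : ((|x| : ℤ) : ℝ) ≤ (((2 : ℤ) ^ κ : ℤ) : ℝ) := by
      push_cast
      exact h2
    exact_mod_cast h4
  by_cases h4 : (2 : ℤ) ^ β ≤ |x|
  · exfalso
    exact absurd (full_of_tiv hp X V κ L β x e hκ h4 h3 he he2 (hinv τ hτ w hw w' hw'))
      (not_le.2 hent)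
  · rw [not_le] at h4
    have h5 : |(x : ℝ)| ≤ 2 ^ β := by
      have h6 : ((|x| : ℤ) : ℝ) ≤ (((2 : ℤ) ^ β : ℤ) : ℝ) := by exact_mod_cast h4.le
      push_cast at h6
      exact h6
    rw [le_div_iff₀ hL]
    have h6 := abs_sub_abs_le_abs_sub (2 ^ L * D) (x : ℝ)
    rw [abs_sub_comm (2 ^ L * D) (x : ℝ), habs] at h6
    linarith

theorem tiv_scalar {Ω U : Type} [Fintype Ω] {p : Ω → ℝ} (X : Ω → Fin 1 → ℤ) (V : Ω → U)
    (x : Fin 1 → ℤ) (e : ℝ) (h : TIV p X V x e) : TIV p (fun ω => X ω 0) V (x 0) e := by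
  intro E
  exact h {z | (z.1 0, z.2) ∈ E}

theorem H_wrap {Ω : Type} [Fintype Ω] {p : Ω → ℝ} (hp : IsLaw p) (A : Ω → ℤ) :
    H p (fun ω => ((fun _ : Fin 1 => A ω), ())) = H p A := by
  refine H_congr hp.nonneg ?_ ?_
  · intro ω ω' _ _ h
    have h' : A ω = A ω' := h
    show ((fun _ : Fin 1 => A ω), ()) = ((fun _ : Fin 1 => A ω'), ())
    rw [h']
  · intro ω ω' _ _ h
    exact congrFun (Prod.ext_iff.mp h).1 0

theorem H_wrap' {Ω S : Type} [Fintype Ω] {p : Ω → ℝ} (hp : IsLaw p) (A : Ω → ℤ) (o : Ω → S) :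
    H p (fun ω => (((fun _ : Fin 1 => A ω), ()), o ω)) = H p (fun ω => (A ω, o ω)) := by
  refine H_congr hp.nonneg ?_ ?_
  · intro ω ω' _ _ h
    have h1 : A ω = A ω' := (Prod.ext_iff.mp h).1
    have h2 : o ω = o ω' := (Prod.ext_iff.mp h).2
    show (((fun _ : Fin 1 => A ω), ()), o ω) = (((fun _ : Fin 1 => A ω'), ()), o ω')
    rw [h1, h2]
  · intro ω ω' _ _ h
    have h1 := congrFun (Prod.ext_iff.mp (Prod.ext_iff.mp h).1).1 0
    have h2 := (Prod.ext_iff.mp h).2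
    exact Prod.ext h1 h2

/-- **`Star` from two-sided independence.** `A` is the normal coordinate at the base time in units
`2 ^ (-L)` of the block, `X τ` the normal coordinate at the time `τ`, `o` the data of the line. -/
theorem star_of_indep {Ω : Type} [Fintype Ω] {p : Ω → ℝ} (hp : IsLaw p) (A : Ω → ℤ)
    (X : ℝ → Ω → ℤ) (o : Ω → Ln ι Unit d) (Bd : ℝ → Set Ω) (κ L β N : ℕ) (R e₁ e₂ ρ e : ℝ)
    (hκ : κ ≤ L) (hN : 0 < N) (hR : 0 ≤ R) (hρ : 0 < ρ)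
    (he : (2 * (2 * Real.sqrt e₁ + e₂)) / ρ + 2 * (R / N) ≤ e) (he0 : 0 ≤ e)
    (he2 : 9 * 4 ^ (L - β) * e ≤ 1) (Φ : ℝ → Unit → ι → ℝ) (S : Set ℝ)
    (g : ℝ → Ln ι Unit d → ℤ)
    (hg : ∀ τ ∈ S, ∀ w, ρ ≤ law p o w → |(g τ w : ℝ) - 2 ^ L * w.h () (Φ τ) τ| ≤ 1)
    (hX : ∀ τ ∈ S, ∀ ω, ω ∉ Bd τ → |((X τ ω - A ω - g τ (o ω) : ℤ) : ℝ)| ≤ R)
    (hBd : ∀ τ ∈ S, Pr p (Bd τ) ≤ e₂)
    (hA : H p A + H p o - H p (fun ω => (A ω, o ω)) ≤ e₁)
    (hXo : ∀ τ ∈ S, H p (X τ) + H p o - H p (fun ω => (X τ ω, o ω)) ≤ e₁)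
    (hent : CH (smp 1 N p) (fun w => (A w.1 + ((w.2 0 : ℕ) : ℤ)) / ((2 ^ κ : ℕ) : ℤ))
      (fun w => ((A w.1 + ((w.2 0 : ℕ) : ℤ)) / ((2 ^ L : ℕ) : ℤ), ())) <
      ((L : ℝ) - κ) * Real.log 2 - 5) :
    Star {w : Ln ι Unit d | ρ ≤ law p o w} Set.univ Φ S ((2 ^ κ - 2) / 2 ^ L)
      ((2 ^ β + 2) / 2 ^ L) := by
  classical
  have hsmp : IsLaw (smp 1 N p) := by
    constructor
    · intro w
      unfold smp
      exact div_nonneg (hp.nonneg _) (by positivity)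
    · unfold smp
      rw [Fintype.sum_prod_type]
      have hNr : (0 : ℝ) < N := by exact_mod_cast hN
      have e1 : ∀ ω : Ω, ∑ _t : Fin 1 → Fin N, p ω / (N : ℝ) ^ 1 = p ω := by
        intro ω
        rw [Finset.sum_const, Finset.card_univ, Fintype.card_fun, Fintype.card_fin,
          Fintype.card_fin, nsmul_eq_mul]
        push_cast
        field_simp
      simp only [e1]
      exact hp.sum_one
  refine star_of_tiv hsmp (fun w => A w.1 + ((w.2 0 : ℕ) : ℤ)) (fun _ => ()) κ L β e hκ he0 he2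
    hent _ Φ S (fun τ w => g τ w) (fun τ hτ w hw => hg τ hτ w hw) ?_
  intro τ hτ w hw w' hw'
  have ht := ti1_thm 1 N Ω (Ln ι Unit d) Unit p (fun ω _ => A ω) (fun ω _ => X τ ω) (fun _ => ())
    o (fun w _ => -g τ w) (Bd τ) R e₁ e₁ w' w hp hN hR ?_ ?_ ?_ (lt_of_lt_of_le hρ hw')
    (lt_of_lt_of_le hρ hw)
  · have ht' := tiv_scalar _ _ _ _ ht
    intro E
    have h1 := ht' E
    have e0 : ((fun _ : Fin 1 => -g τ w') - fun _ : Fin 1 => -g τ w) 0 = g τ w - g τ w' := by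
      show -g τ w' - -g τ w = _
      ring
    rw [e0] at h1
    refine h1.trans (le_trans ?_ he)
    have hq : 0 ≤ Real.sqrt e₁ + Real.sqrt e₁ + Pr p (Bd τ) := by
      have h2 := Real.sqrt_nonneg e₁
      have h3 : 0 ≤ Pr p (Bd τ) := by
        unfold Pr law
        refine Finset.sum_nonneg fun ω _ => ?_
        split_ifs
        · exact hp.nonneg ω
        · exact le_rfl
      linarith
    have h4 : ∀ z, ρ ≤ law p o z → (Real.sqrt e₁ + Real.sqrt e₁ + Pr p (Bd τ)) / law p o z ≤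
        (2 * Real.sqrt e₁ + e₂) / ρ := by
      intro z hz
      refine div_le_div₀ ?_ ?_ hρ hz
      · have := hBd τ hτ
        linarith
      · have := hBd τ hτ
        linarith
    have h5 := h4 w hw
    have h6 := h4 w' hw'
    have e1 : (2 * (2 * Real.sqrt e₁ + e₂)) / ρ =
        (2 * Real.sqrt e₁ + e₂) / ρ + (2 * Real.sqrt e₁ + e₂) / ρ := by ring
    have e3 : (2 : ℝ) * (((1 : ℕ) : ℝ) * R / N) = 2 * (R / N) := by
      push_cast
      ring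
    rw [e1, e3]
    linarith
  · intro ω hω i
    have h1 := hX τ hτ ω hω
    have e1 : ((A ω - X τ ω - -g τ (o ω) : ℤ) : ℝ) = -((X τ ω - A ω - g τ (o ω) : ℤ) : ℝ) := by
      push_cast
      ring
    show |((A ω - X τ ω - -g τ (o ω) : ℤ) : ℝ)| ≤ R
    rw [e1, abs_neg]
    exact h1
  · refine le_trans (le_of_eq ?_) hA
    rw [H_wrap hp A, H_wrap' hp A o]
  · refine le_trans (le_of_eq ?_) (hXo τ hτ)
    rw [H_wrap hp (X τ), H_wrap' hp (X τ) o]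

end Pool.LP
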